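import Mathlib

/-! Bounds with the Ackermann function. -/

namespace Pool.Agent.ParisQ

theorem AckA_two (y : ℕ) : 2 * y < ack 2 y := by
  rw [ack_two]; omega

theorem AckA_F (s k : ℕ) : k + ack s k ≤ ack (max 2 s + 2) k := by
  have h1 : k < ack s k := lt_ack_right s k
  have h2 := AckA_two (ack s k)
  have h3 := ack_ack_lt_ack_max_add_two 2 s k
  omega

theorem AckA_iter (s n r : ℕ) :
    (fun k => k + ack s k)^[r] n ≤ ack (max 2 s + 2 + 1) (n + r) := by
  induction r with
  | zero =>
    simp only [Function.iterate_zero, id_eq, add_zero]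
    exact (lt_ack_right _ _).le
  | succ r ih =>
    rw [Function.iterate_succ_apply']
    refine (AckA_F s _).trans ?_
    rw [← add_assoc, ack_succ_succ]
    exact ack_mono_right _ ih

theorem AckA_lin (K : ℕ) : ∃ d, ∀ n : ℕ, K * n + 1 ≤ ack d n := by
  induction K with
  | zero => exact ⟨0, fun n => by rw [ack_zero]; omega⟩
  | succ K ih =>
    obtain ⟨d, hd⟩ := ih
    refine ⟨max 2 d + 2, fun n => ?_⟩
    have h1 := hd n
    have h2 := AckA_F d n
    have h3 : (K + 1) * n + 1 = n + (K * n + 1) := by ring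
    omega

theorem ack_absorb (s c : ℕ) : ∃ t, ∀ n N : ℕ,
    N ≤ (fun k => k + ack s k)^[4 * c * n + 1] n →
    ack s N + ((fun k => k + ack s k)^[4 * c * n + 1] n - n) ≤ ack t n := by
  obtain ⟨d, hd⟩ := AckA_lin (4 * c + 1)
  set b := max 2 s + 2 with hb
  set e := max (b + 1) d + 2 with he
  refine ⟨max b e + 2, fun n N hN => ?_⟩
  set V := (fun k => k + ack s k)^[4 * c * n + 1] n with hV
  have h1 : V ≤ ack (b + 1) (n + (4 * c * n + 1)) := AckA_iter s n _
  have h2 : n + (4 * c * n + 1) ≤ ack d n := by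
    have := hd n
    have h3 : (4 * c + 1) * n + 1 = n + (4 * c * n + 1) := by ring
    omega
  have h3 : V ≤ ack e n :=
    (h1.trans (ack_mono_right _ h2)).trans (ack_ack_lt_ack_max_add_two (b + 1) d n).le
  have h4 : ack s N ≤ ack s V := ack_mono_right _ hN
  have h5 : V + ack s V ≤ ack b V := AckA_F s V
  have h6 : ack b V ≤ ack b (ack e n) := ack_mono_right _ h3
  have h7 := ack_ack_lt_ack_max_add_two b e n
  omega

end Pool.Agent.ParisQ
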