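import Mathlib

/-! The choice of the parameters. -/

namespace Pool.Agent.ParisQ

theorem AckP_prim (k : ℕ) : Primrec (ack k) := by
  induction k with
  | zero =>
    have : ack 0 = Nat.succ := by
      funext n
      simp
    rw [this]
    exact Primrec.succ
  | succ k ih =>
    have h : Primrec (Nat.rec (ack k 1) (fun _ r => ack k r) : ℕ → ℕ) :=
      Primrec.nat_rec₁ (ack k 1) (ih.comp Primrec.snd).to₂
    refine h.of_eq fun n => ?_
    induction n with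
    | zero => simp
    | succ n ihn =>
      show ack k (Nat.rec (ack k 1) (fun _ r => ack k r) n) = _
      rw [ihn, ack_succ_succ]

theorem AckP_pow : Primrec₂ (fun a b : ℕ => a ^ b) := by
  have := Nat.Primrec.pow
  exact Primrec₂.unpaired'.1 this

theorem AckP_step (g : ℕ → ℕ) (hg : ∀ p : ℕ → ℕ, Nat.Primrec p → ∃ y, p y < g y) (j B : ℕ) :
    ∃ y : ℕ, ((ack j (y + 1) + (j + 2 + B)) ^ 2) ^ ((ack j (y + 1) + (j + 2 + B)) ^ 2) < g y := by
  apply hg (fun y => ((ack j (y + 1) + (j + 2 + B)) ^ 2) ^ ((ack j (y + 1) + (j + 2 + B)) ^ 2))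
  rw [← Primrec.nat_iff]
  have h1 : Primrec (fun y : ℕ => ack j (y + 1)) := (AckP_prim j).comp Primrec.succ
  have h2 : Primrec (fun y : ℕ => ack j (y + 1) + (j + 2 + B)) :=
    Primrec.nat_add.comp h1 (Primrec.const _)
  have h3 : Primrec (fun y : ℕ => (ack j (y + 1) + (j + 2 + B)) ^ 2) :=
    AckP_pow.comp h2 (Primrec.const 2)
  exact AckP_pow.comp h3 h3

theorem exists_params (g : ℕ → ℕ) (hg : ∀ p : ℕ → ℕ, Nat.Primrec p → ∃ y, p y < g y) :
    ∃ x y q : ℕ → ℕ, (∀ j, x j = q j ^ 2) ∧ (∀ j, x j ^ x j < x (j + 1)) ∧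
      (∀ j, x j ^ x j < g (y j)) ∧ (∀ s j, s < j → ack s (y j + 1) ≤ q j) ∧
      (∀ j, j + 2 ≤ q j) := by
  choose Y hY using AckP_step g hg
  let Q : ℕ → ℕ → ℕ := fun j B => ack j (Y j B + 1) + (j + 2 + B)
  let BB : ℕ → ℕ := fun j => Nat.rec 0 (fun j B => (Q j B ^ 2) ^ (Q j B ^ 2)) j
  have hBB : ∀ j, BB (j + 1) = (Q j (BB j) ^ 2) ^ (Q j (BB j) ^ 2) := fun j => rfl
  refine ⟨fun j => Q j (BB j) ^ 2, fun j => Y j (BB j), fun j => Q j (BB j), fun j => rfl, ?_, ?_,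
    ?_, ?_⟩
  · intro j
    show (Q j (BB j) ^ 2) ^ (Q j (BB j) ^ 2) < Q (j + 1) (BB (j + 1)) ^ 2
    rw [← hBB]
    have h1 : BB (j + 1) < Q (j + 1) (BB (j + 1)) := by
      show _ < ack (j + 1) _ + (j + 1 + 2 + BB (j + 1))
      omega
    have h2 : Q (j + 1) (BB (j + 1)) ≤ Q (j + 1) (BB (j + 1)) ^ 2 :=
      Nat.le_self_pow (by norm_num) _
    omega
  · intro j
    exact hY j (BB j)
  · intro s j hs
    show ack s (Y j (BB j) + 1) ≤ ack j (Y j (BB j) + 1) + (j + 2 + BB j)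
    have := ack_le_ack hs.le (le_refl (Y j (BB j) + 1))
    omega
  · intro j
    show j + 2 ≤ ack j (Y j (BB j) + 1) + (j + 2 + BB j)
    omega

end Pool.Agent.ParisQ
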