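import Mathlib.Algebra.Order.Ring.Canonical
import Mathlib.Computability.Primrec.Basic

/-!
# Provably Delta_1 induction and Sigma_1 collection in expanded languages of arithmetic

The language has `0, 1, +, ·, <` and countably many ternary predicate symbols `base k`.
Formulas are de Bruijn style: a formula is evaluated at a finite list of elements, variable `i`
is the `i`-th entry of the list, and a quantifier puts the new element at the head of the list.
-/

namespace Pool.Agent.ParisQ

/-- Terms of the language: variables, `0`, `1`, sums and products. -/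
inductive Tm : Type
  | var : ℕ → Tm
  | zero : Tm
  | one : Tm
  | add : Tm → Tm → Tm
  | mul : Tm → Tm → Tm

/-- Formulas.  `ball t φ` is the bounded quantifier `∀ y ≤ t, φ` (the term `t` does not
contain `y`), `all φ` is the unbounded quantifier `∀ y, φ`. -/
inductive Fm : Type
  | eq : Tm → Tm → Fm
  | lt : Tm → Tm → Fm
  | base : ℕ → Tm → Tm → Tm → Fm
  | neg : Fm → Fm
  | and : Fm → Fm → Fm
  | ball : Tm → Fm → Fm
  | all : Fm → Fm

/-- An interpretation of the ternary predicate symbols. -/
abbrev Interp (M : Type) := ℕ → M → M → M → Prop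

/-- Value of a term at a list of elements (a variable beyond the end of the list is `0`). -/
def Tm.val {M : Type} [CommSemiring M] (v : List M) : Tm → M
  | .var i => v.getD i 0
  | .zero => 0
  | .one => 1
  | .add s t => s.val v + t.val v
  | .mul s t => s.val v * t.val v

/-- Truth of a formula at a list of elements. -/
def Fm.holds {M : Type} [CommSemiring M] [LinearOrder M] (I : Interp M) : Fm → List M → Prop
  | .eq s t, v => s.val v = t.val v
  | .lt s t, v => s.val v < t.val v
  | .base k s t u, v => I k (s.val v) (t.val v) (u.val v)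
  | .neg φ, v => ¬ φ.holds I v
  | .and φ ψ, v => φ.holds I v ∧ ψ.holds I v
  | .ball t φ, v => ∀ y : M, y ≤ t.val v → φ.holds I (y :: v)
  | .all φ, v => ∀ y : M, φ.holds I (y :: v)

/-- Bounded formulas: no unbounded quantifier. -/
def Fm.Delta0 : Fm → Prop
  | .eq _ _ => True
  | .lt _ _ => True
  | .base _ _ _ _ => True
  | .neg φ => φ.Delta0
  | .and φ ψ => φ.Delta0 ∧ ψ.Delta0
  | .ball _ φ => φ.Delta0
  | .all _ => False

/-- The existential quantifier. -/
def Fm.ex (φ : Fm) : Fm := .neg (.all (.neg φ))

/-- Sigma_1 formulas: a block of existential quantifiers in front of a bounded formula. -/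
inductive Sigma1 : Fm → Prop
  | delta {φ : Fm} : φ.Delta0 → Sigma1 φ
  | ex {φ : Fm} : Sigma1 φ → Sigma1 φ.ex

/-- Pi_1 formulas: a block of universal quantifiers in front of a bounded formula. -/
inductive Pi1 : Fm → Prop
  | delta {φ : Fm} : φ.Delta0 → Pi1 φ
  | all {φ : Fm} : Pi1 φ → Pi1 (.all φ)

/-- Induction for provably Delta_1 formulas, with parameters `p`. -/
def DeltaOneInd {M : Type} [CommSemiring M] [LinearOrder M] (I : Interp M) : Prop :=
  ∀ φ ψ : Fm, Sigma1 φ → Pi1 ψ → ∀ p : List M,
    (∀ x : M, φ.holds I (x :: p) ↔ ψ.holds I (x :: p)) →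
    φ.holds I (0 :: p) → (∀ x : M, φ.holds I (x :: p) → φ.holds I ((x + 1) :: p)) →
    ∀ x : M, φ.holds I (x :: p)

/-- Collection for Sigma_1 formulas `θ(y, x, p)`, with parameters `p`. -/
def SigmaOneColl {M : Type} [CommSemiring M] [LinearOrder M] (I : Interp M) : Prop :=
  ∀ θ : Fm, Sigma1 θ → ∀ (p : List M) (a : M),
    (∀ x : M, x ≤ a → ∃ y : M, θ.holds I (y :: x :: p)) →
    ∃ t : M, ∀ x : M, x ≤ a → ∃ y : M, y < t ∧ θ.holds I (y :: x :: p)

/-- The standard interpretation on `ℕ`: symbol `0` is the graph `z = x ^ y` of exponentiation,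
symbol `1` is the relation `x < g y`, symbol `2` is `A` and symbol `k + 3` is `P k`. -/
def stdI (g : ℕ → ℕ) (A : ℕ → ℕ → ℕ → Prop) (P : ℕ → ℕ → ℕ → ℕ → Prop) : Interp ℕ
  | 0 => fun x y z => z = x ^ y
  | 1 => fun x y _ => x < g y
  | 2 => A
  | k + 3 => P k

end Pool.Agent.ParisQ
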