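import Mathlib
import Pool.Agent.ParisQ.Defs

/-! Degrees of terms and formulas, locality of bounded formulas. -/

namespace Pool.Agent.ParisQ

/-- A bound for the exponent: `t.val v ≤ z ^ t.deg` when all entries of `v` are `≤ z`, `2 ≤ z`. -/
def Tm.deg : Tm → ℕ
  | .var _ => 1
  | .zero => 1
  | .one => 1
  | .add s t => max s.deg t.deg + 1
  | .mul s t => s.deg + t.deg

/-- The exponent of the range consulted by a bounded formula. -/
def Fm.deg : Fm → ℕ
  | .eq _ _ => 1
  | .lt _ _ => 1
  | .base _ s t u => max s.deg (max t.deg u.deg)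
  | .neg φ => φ.deg
  | .and φ ψ => max φ.deg ψ.deg
  | .ball t φ => t.deg * φ.deg
  | .all φ => φ.deg

theorem Tm.deg_pos (t : Tm) : 1 ≤ t.deg := by
  induction t with
  | var _ => exact le_refl _
  | zero => exact le_refl _
  | one => exact le_refl _
  | add s t _ _ => exact Nat.le_add_left _ _
  | mul s t hs _ => exact le_trans hs (Nat.le_add_right _ _)

theorem Fm.deg_pos (φ : Fm) : 1 ≤ φ.deg := by
  induction φ with
  | eq _ _ => exact le_refl _
  | lt _ _ => exact le_refl _
  | base _ s t u => exact le_trans s.deg_pos (le_max_left _ _)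
  | neg φ h => exact h
  | and φ ψ h _ => exact le_trans h (le_max_left _ _)
  | ball t φ h => exact Nat.mul_pos t.deg_pos h
  | all φ h => exact h

theorem Syn_getD_le (v : List ℕ) (z i : ℕ) (hv : ∀ a ∈ v, a ≤ z) : v.getD i 0 ≤ z := by
  rw [List.getD_eq_getElem?_getD]
  rcases h : v[i]? with _ | a
  · simp
  · have ha : a ∈ v := List.mem_of_getElem? h
    simpa using hv a ha

theorem Tm.val_le (t : Tm) (z : ℕ) (hz : 2 ≤ z) (v : List ℕ) (hv : ∀ a ∈ v, a ≤ z) :
    t.val v ≤ z ^ t.deg := by
  induction t with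
  | var i =>
      show v.getD i 0 ≤ z ^ 1
      rw [pow_one]; exact Syn_getD_le v z i hv
  | zero => exact Nat.zero_le _
  | one =>
      show 1 ≤ z ^ 1
      rw [pow_one]; omega
  | add s t hs ht =>
      show s.val v + t.val v ≤ z ^ (max s.deg t.deg + 1)
      have h1 : z ^ s.deg ≤ z ^ max s.deg t.deg := Nat.pow_le_pow_right (by omega) (le_max_left _ _)
      have h2 : z ^ t.deg ≤ z ^ max s.deg t.deg := Nat.pow_le_pow_right (by omega) (le_max_right _ _)
      calc s.val v + t.val v ≤ z ^ max s.deg t.deg * 2 := by omega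
        _ ≤ z ^ max s.deg t.deg * z := Nat.mul_le_mul_left _ hz
        _ = z ^ (max s.deg t.deg + 1) := (pow_succ _ _).symm
  | mul s t hs ht =>
      show s.val v * t.val v ≤ z ^ (s.deg + t.deg)
      rw [pow_add]; exact Nat.mul_le_mul hs ht

theorem Fm.holds_congr (φ : Fm) (hφ : φ.Delta0) (I J : Interp ℕ) (z : ℕ) (hz : 2 ≤ z)
    (v : List ℕ) (hv : ∀ a ∈ v, a ≤ z)
    (h : ∀ k a b c, a ≤ z ^ φ.deg → b ≤ z ^ φ.deg → c ≤ z ^ φ.deg → (I k a b c ↔ J k a b c)) :
    φ.holds I v ↔ φ.holds J v := by
  induction φ generalizing z v with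
  | eq s t => exact Iff.rfl
  | lt s t => exact Iff.rfl
  | base k s t u =>
      have hm : ∀ r : Tm, r.deg ≤ (Fm.base k s t u).deg → r.val v ≤ z ^ (Fm.base k s t u).deg := fun r hr =>
        le_trans (r.val_le z hz v hv) (Nat.pow_le_pow_right (by omega) hr)
      exact h k _ _ _ (hm s (le_max_left _ _)) (hm t (le_trans (le_max_left _ _) (le_max_right _ _)))
        (hm u (le_trans (le_max_right _ _) (le_max_right _ _)))
  | neg φ ih => exact not_congr (ih hφ z hz v hv h)
  | and φ ψ ih1 ih2 =>
      refine and_congr (ih1 hφ.1 z hz v hv ?_) (ih2 hφ.2 z hz v hv ?_)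
      · intro k a b c ha hb hc
        have hp : z ^ φ.deg ≤ z ^ (Fm.and φ ψ).deg := Nat.pow_le_pow_right (by omega) (le_max_left _ _)
        exact h k a b c (le_trans ha hp) (le_trans hb hp) (le_trans hc hp)
      · intro k a b c ha hb hc
        have hp : z ^ ψ.deg ≤ z ^ (Fm.and φ ψ).deg := Nat.pow_le_pow_right (by omega) (le_max_right _ _)
        exact h k a b c (le_trans ha hp) (le_trans hb hp) (le_trans hc hp)
  | ball t φ ih =>
      show (∀ y : ℕ, y ≤ t.val v → φ.holds I (y :: v)) ↔ (∀ y : ℕ, y ≤ t.val v → φ.holds J (y :: v))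
      refine forall_congr' fun y => forall_congr' fun hy => ?_
      have ht := t.val_le z hz v hv
      have htd := t.deg_pos
      have hzz : z ≤ z ^ t.deg := by
        calc z = z ^ 1 := (pow_one z).symm
          _ ≤ z ^ t.deg := Nat.pow_le_pow_right (by omega) htd
      refine ih hφ (z ^ t.deg) (le_trans hz hzz) (y :: v) ?_ ?_
      · intro a ha
        rcases List.mem_cons.1 ha with rfl | ha
        · exact le_trans hy ht
        · exact le_trans (hv a ha) hzz
      · intro k a b c ha hb hc
        rw [← pow_mul] at ha hb hc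
        exact h k a b c ha hb hc
  | all φ ih => exact absurd hφ id

end Pool.Agent.ParisQ
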