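import Pool.Agent.ParisQ.Cnd
import Pool.Agent.ParisQ.Syn

/-! The oracle on `ℕ` obtained from a descending sequence of conditions. -/

open Filter

namespace Pool.Agent.ParisQ

/-- The graph coded by a state: `u` is sent to `x ^ (f u)`. -/
def Rel (x : ℕ) (f : ℕ → ℕ) (u v : ℕ) : Prop := u ≤ x ∧ f u ≠ 0 ∧ v = x ^ f u

/-- The oracle seen at index `i` in the state `f`. -/
def orc (x : ℕ → ℕ) (i : Idx) (f : ℕ → ℕ) : ℕ → ℕ → ℕ → Prop :=
  fun a u v => i.2 a u v ∨ (a = x i.1 ∧ Rel (x i.1) f u v)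

/-- Two states of which one extends the other code the same graph below `x ^ n`. -/
theorem Rel_congr {x n n' : ℕ} {f f' : ℕ → ℕ} (hx : 2 ≤ x) (h : Ext n f n' f') {u v : ℕ}
    (hv : v ≤ x ^ n) : Rel x f u v ↔ Rel x f' u v := by
  obtain ⟨_, h⟩ := h
  unfold Rel
  constructor
  · rintro ⟨h1, h2, h3⟩
    rcases h u with h4 | ⟨h4, _, _⟩
    · exact ⟨h1, by rw [h4]; exact h2, by rw [h4]; exact h3⟩
    · exact absurd h4 h2
  · rintro ⟨h1, h2, h3⟩
    rcases h u with h4 | ⟨_, h5, _⟩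
    · exact ⟨h1, by rw [← h4]; exact h2, by rw [← h4]; exact h3⟩
    · exfalso
      have h6 : x ^ n < x ^ f' u := Nat.pow_lt_pow_right (by omega) h5
      omega

/-- The past at stage `j`, with `kk j` the condition used at stage `j`. -/
def past (x : ℕ → ℕ) (c : ℕ → Cond) (kk : ℕ → ℕ) : ℕ → ℕ → ℕ → ℕ → Prop
  | 0 => fun _ _ _ => False
  | j + 1 => orc x (j, past x c kk j) ((c (kk j)).f (j, past x c kk j))

theorem Brn_x_lt {x : ℕ → ℕ} (hx2 : ∀ j, 2 ≤ x j) (hxx : ∀ j, x j ^ x j < x (j + 1)) (j : ℕ) :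
    x j < x (j + 1) := by
  have h1 := hx2 j
  have h2 : x j ^ 1 ≤ x j ^ x j := Nat.pow_le_pow_right (by omega) (by omega)
  have h3 := hxx j
  rw [pow_one] at h2
  omega

theorem Brn_past_lt {x : ℕ → ℕ} (hx2 : ∀ j, 2 ≤ x j) (hxx : ∀ j, x j ^ x j < x (j + 1))
    (c : ℕ → Cond) (kk : ℕ → ℕ) : ∀ j a u v, past x c kk j a u v → a < x j := by
  intro j
  induction j with
  | zero => intro a u v h; exact absurd h (by simp [past])
  | succ j ih =>
    intro a u v h
    have h1 := Brn_x_lt hx2 hxx j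
    rw [past] at h
    rcases h with h | ⟨h, _⟩
    · exact (ih a u v h).trans h1
    · simp only at h
      omega

theorem Brn_mono (x : ℕ → ℕ) (c : ℕ → Cond) (kk : ℕ → ℕ) {j j' : ℕ} (h : j ≤ j') {a u v : ℕ}
    (hp : past x c kk j a u v) : past x c kk j' a u v := by
  induction j', h using Nat.le_induction with
  | base => exact hp
  | succ m _ ih =>
    rw [past]
    exact Or.inl ih

theorem Brn_back {x : ℕ → ℕ} (hx2 : ∀ j, 2 ≤ x j) (hxx : ∀ j, x j ^ x j < x (j + 1))
    (c : ℕ → Cond) (kk : ℕ → ℕ) {j j' : ℕ} (h : j ≤ j') {a u v : ℕ} (ha : a < x j)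
    (hp : past x c kk j' a u v) : past x c kk j a u v := by
  induction j', h using Nat.le_induction with
  | base => exact hp
  | succ m hm ih =>
    rw [past] at hp
    rcases hp with hp | ⟨hp, _⟩
    · exact ih hp
    · exfalso
      have h1 : x j ≤ x m := monotone_nat_of_le_succ (fun n => (Brn_x_lt hx2 hxx n).le) hm
      simp only at hp
      omega

/-- diagonalisation of eventual truth -/
theorem Brn_diag (p : ℕ → ℕ → Prop) (h0 : ∀ j, p 0 j) (h : ∀ s, ∀ᶠ j in atTop, p s j) :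
    ∃ kk : ℕ → ℕ, (∀ s, ∀ᶠ j in atTop, s ≤ kk j) ∧ ∀ j, p (kk j) j := by
  classical
  refine ⟨fun j => Nat.findGreatest (fun s => p s j) j, fun s => ?_, fun j => ?_⟩
  · filter_upwards [h s, eventually_ge_atTop s] with j hj hs
    exact Nat.le_findGreatest hs hj
  · exact Nat.findGreatest_spec (P := fun s => p s j) (Nat.zero_le j) (h0 j)

theorem Brn_chain (c : ℕ → Cond) (i : Idx) {k s : ℕ} (hks : k ≤ s)
    (h : ∀ m, m < s → Ext ((c m).n i) ((c m).f i) ((c (m + 1)).n i) ((c (m + 1)).f i)) :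
    Ext ((c k).n i) ((c k).f i) ((c s).n i) ((c s).f i) := by
  induction s, hks using Nat.le_induction with
  | base => exact Ext.refl _ _
  | succ m _ ih =>
    exact (ih (fun m' hm' => h m' (by omega))).trans (h m (by omega))

theorem exists_oracle {x : ℕ → ℕ} (hx : Tendsto x atTop atTop) (hx2 : ∀ j, 2 ≤ x j)
    (hxx : ∀ j, x j ^ x j < x (j + 1)) (c : ℕ → Cond) (hc : ∀ k, Good x (c k))
    (hle : ∀ k, Le (c (k + 1)) (c k)) :
    ∃ (A : ℕ → ℕ → ℕ → Prop) (pa : ℕ → ℕ → ℕ → ℕ → Prop),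
      (∀ j a u v, pa j a u v → a < x j) ∧
      ∀ k, ∀ᶠ j in atTop, ∀ a u v, a ≤ x j ^ (c k).n (j, pa j) → u ≤ x j ^ (c k).n (j, pa j) →
        v ≤ x j ^ (c k).n (j, pa j) →
        (A a u v ↔ orc x (j, pa j) ((c k).f (j, pa j)) a u v) := by
  obtain ⟨kk, hk1, hk2⟩ := Brn_diag (fun s j => ∀ m, m < s → ∀ ρ,
      Ext ((c m).n (j, ρ)) ((c m).f (j, ρ)) ((c (m + 1)).n (j, ρ)) ((c (m + 1)).f (j, ρ)))
    (fun j m hm => absurd hm (by omega))
    (fun s => by
      have h1 : ∀ m, ∀ᶠ j in atTop, ∀ ρ,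
          Ext ((c m).n (j, ρ)) ((c m).f (j, ρ)) ((c (m + 1)).n (j, ρ)) ((c (m + 1)).f (j, ρ)) := by
        intro m
        obtain ⟨J, hJ⟩ := eventually_Fil.1 (hle m)
        filter_upwards [eventually_ge_atTop J] with j hj ρ
        exact (hJ j hj ρ).1
      induction s with
      | zero => exact Eventually.of_forall (fun j m hm => absurd hm (by omega))
      | succ s ih =>
        filter_upwards [ih, h1 s] with j h2 h3 m hm
        rcases Nat.lt_succ_iff_lt_or_eq.1 hm with h4 | h4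
        · exact h2 m h4
        · rw [h4]
          exact h3)
  refine ⟨fun a u v => ∃ j, past x c kk j a u v, past x c kk, Brn_past_lt hx2 hxx c kk,
    fun k => ?_⟩
  obtain ⟨J, hJ⟩ := eventually_Fil.1 ((hc k).level_le hx)
  filter_upwards [hk1 k, eventually_ge_atTop J] with j hj1 hj2 a u v ha hu hv
  have hn : (c k).n (j, past x c kk j) ≤ x j := hJ j hj2 _
  have ha' : a < x (j + 1) := by
    have h1 : x j ^ (c k).n (j, past x c kk j) ≤ x j ^ x j :=
      Nat.pow_le_pow_right (by have := hx2 j; omega) hn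
    have h2 := hxx j
    omega
  have h3 : (∃ j', past x c kk j' a u v) ↔ past x c kk (j + 1) a u v := by
    constructor
    · rintro ⟨j', hj'⟩
      rcases le_total j' (j + 1) with h | h
      · exact Brn_mono x c kk h hj'
      · exact Brn_back hx2 hxx c kk h ha' hj'
    · intro h
      exact ⟨_, h⟩
  rw [h3, past]
  have hE := Brn_chain c (j, past x c kk j) hj1 (fun m hm => hk2 j m hm _)
  unfold orc
  rw [Rel_congr (x := x (j, past x c kk j).1) (hx2 j) hE hv]

end Pool.Agent.ParisQ
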