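import Mathlib

/-! A countable set closed under countably many solvable problems. -/

namespace Pool.Agent.ParisQ

open Classical in
/-- the chosen solution -/
noncomputable def Clo_g {Ω κ : Type} (rel : κ → List Ω → Ω → Prop) (ω₀ : Ω) (k : κ) (l : List Ω) : Ω :=
  if h : ∃ y, rel k l y then h.choose else ω₀

theorem Clo_g_spec {Ω κ : Type} (rel : κ → List Ω → Ω → Prop) (ω₀ : Ω) (k : κ) (l : List Ω)
    (h : ∃ y, rel k l y) : rel k l (Clo_g rel ω₀ k l) := by
  unfold Clo_g
  rw [dif_pos h]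
  exact h.choose_spec

/-- the stages of the closure -/
noncomputable def Clo_F {Ω κ : Type} (rel : κ → List Ω → Ω → Prop) (ω₀ : Ω) : ℕ → Set Ω
  | 0 => {ω₀}
  | n + 1 => Clo_F rel ω₀ n ∪
      Set.range (fun p : κ × List (Clo_F rel ω₀ n) => Clo_g rel ω₀ p.1 (p.2.map Subtype.val))

theorem exists_closed {Ω κ : Type} [Countable κ] (rel : κ → List Ω → Ω → Prop) (ω₀ : Ω) :
    ∃ F : Set Ω, F.Countable ∧ ω₀ ∈ F ∧
      ∀ k l, (∀ a ∈ l, a ∈ F) → (∃ y, rel k l y) → ∃ y ∈ F, rel k l y := by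
  have hcount : ∀ n, (Clo_F rel ω₀ n).Countable := by
    intro n
    induction n with
    | zero => exact Set.countable_singleton _
    | succ n ih =>
      have : Countable (Clo_F rel ω₀ n) := ih.to_subtype
      exact ih.union (Set.countable_range _)
  have hmono : Monotone (Clo_F rel ω₀) :=
    monotone_nat_of_le_succ (fun n => Set.subset_union_left)
  refine ⟨⋃ n, Clo_F rel ω₀ n, Set.countable_iUnion hcount,
    Set.mem_iUnion.2 ⟨0, rfl⟩, fun k l hl hy => ?_⟩
  have hN : ∃ N, ∀ a ∈ l, a ∈ Clo_F rel ω₀ N := by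
    clear hy
    induction l with
    | nil => exact ⟨0, fun a ha => absurd ha (by simp)⟩
    | cons b l ih =>
      obtain ⟨N, hN⟩ := ih (fun a ha => hl a (List.mem_cons_of_mem _ ha))
      obtain ⟨M, hM⟩ := Set.mem_iUnion.1 (hl b List.mem_cons_self)
      refine ⟨max N M, fun a ha => ?_⟩
      rcases List.mem_cons.1 ha with h | h
      · rw [h]
        exact hmono (le_max_right _ _) hM
      · exact hmono (le_max_left _ _) (hN a h)
  obtain ⟨N, hN⟩ := hN
  refine ⟨Clo_g rel ω₀ k l, Set.mem_iUnion.2 ⟨N + 1, Or.inr ⟨(k, l.attach.map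
    (fun a => ⟨a.1, hN a.1 a.2⟩)), ?_⟩⟩, Clo_g_spec rel ω₀ k l hy⟩
  simp only [List.map_map]
  congr 1
  simp [Function.comp_def]

end Pool.Agent.ParisQ
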