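import Pool.Agent.ParisQ.Game

/-! Conditions: families of states of the game, indexed by pairs (number, relation). -/

open Filter

namespace Pool.Agent.ParisQ

/-- The index set: a number `j` and an arbitrary ternary relation (the past). -/
abbrev Idx := ℕ × (ℕ → ℕ → ℕ → Prop)

/-- The filter of all sets containing all `(j, ρ)` with `j` large. -/
def Fil : Filter Idx := comap Prod.fst atTop

/-- A condition: at every index a level, a function, a bound and a predicate on states. -/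
structure Cond where
  n : Idx → ℕ
  f : Idx → ℕ → ℕ
  q : Idx → ℕ
  P : Idx → ℕ → (ℕ → ℕ) → Prop

/-- Good conditions. -/
def Good (x : ℕ → ℕ) (c : Cond) : Prop :=
  (∃ e, ∀ᶠ i in Fil, x i.1 ≤ c.q i ^ e) ∧
  ∀ s, ∀ᶠ i in Fil, W (x i.1) (c.q i) (c.P i) (ack s (c.n i)) (c.n i) (c.f i)

/-- `c'` extends `c`. -/
def Le (c' c : Cond) : Prop :=
  ∀ᶠ i in Fil, Ext (c.n i) (c.f i) (c'.n i) (c'.f i) ∧ ∀ n f, c'.P i n f → c.P i n f

theorem eventually_Fil {p : Idx → Prop} : (∀ᶠ i in Fil, p i) ↔ ∃ J, ∀ j, J ≤ j → ∀ ρ, p (j, ρ) := by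
  unfold Fil
  rw [eventually_comap, eventually_atTop]
  constructor
  · rintro ⟨J, hJ⟩
    exact ⟨J, fun j hj ρ => hJ j hj (j, ρ) rfl⟩
  · rintro ⟨J, hJ⟩
    refine ⟨J, fun j hj i hi => ?_⟩
    obtain ⟨a, ρ⟩ := i
    simp only at hi
    subst hi
    exact hJ a hj ρ

/-- Diagonalisation. -/
theorem diag {Φ : ℕ → Idx → Prop} (hanti : ∀ s i, Φ (s + 1) i → Φ s i)
    (h : ∀ s, ∀ᶠ i in Fil, Φ s i) :
    ∃ σ : Idx → ℕ, (∀ s, ∀ᶠ i in Fil, s ≤ σ i) ∧ ∀ᶠ i in Fil, Φ (σ i) i := by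
  classical
  have h' : ∀ s, ∃ J, ∀ j, J ≤ j → ∀ ρ, Φ s (j, ρ) := fun s => eventually_Fil.1 (h s)
  choose J hJ using h'
  refine ⟨fun i => Nat.findGreatest (fun s => J s ≤ i.1) i.1, ?_, ?_⟩
  · intro s
    rw [eventually_Fil]
    refine ⟨max (J s) s, fun j hj ρ => ?_⟩
    exact Nat.le_findGreatest (le_trans (le_max_right _ _) hj) (le_trans (le_max_left _ _) hj)
  · rw [eventually_Fil]
    refine ⟨J 0, fun j hj ρ => ?_⟩
    apply hJ
    exact Nat.findGreatest_spec (P := fun s => J s ≤ j) (Nat.zero_le j) hj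

theorem Cnd_x_large {x : ℕ → ℕ} (hx : Tendsto x atTop atTop) (N : ℕ) :
    ∀ᶠ i in Fil, N ≤ x i.1 := by
  rw [eventually_Fil]
  obtain ⟨J, hJ⟩ := eventually_atTop.1 (hx.eventually_ge_atTop N)
  exact ⟨J, fun j hj _ => hJ j hj⟩

theorem Cnd_q_ge {x : ℕ → ℕ} (hx : Tendsto x atTop atTop) {c : Cond} (hc : Good x c) :
    ∀ᶠ i in Fil, 2 ≤ c.q i := by
  obtain ⟨⟨e, he⟩, -⟩ := hc
  filter_upwards [he, Cnd_x_large hx 2] with i h1 h2
  by_contra hq
  have : c.q i ^ e ≤ 1 := by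
    calc c.q i ^ e ≤ 1 ^ e := Nat.pow_le_pow_left (by omega) e
      _ = 1 := one_pow e
  omega

/-- The game value of a good condition, diagonalised. -/
theorem Cnd_diag {x : ℕ → ℕ} {c : Cond} (hx : Tendsto x atTop atTop) (hc : Good x c) :
    ∃ σ : Idx → ℕ, (∀ s, ∀ᶠ i in Fil, s ≤ σ i) ∧
      ∀ᶠ i in Fil, 2 ≤ c.q i ∧
        W (x i.1) (c.q i) (c.P i) (ack (σ i) (c.n i)) (c.n i) (c.f i) := by
  refine diag (Φ := fun s i => 2 ≤ c.q i ∧
        W (x i.1) (c.q i) (c.P i) (ack s (c.n i)) (c.n i) (c.f i)) ?_ ?_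
  · rintro s i ⟨h2, hW⟩
    exact ⟨h2, W.mono (by omega) (ack_le_ack (Nat.le_succ s) le_rfl) le_rfl (fun _ _ h => h) hW⟩
  · intro s
    filter_upwards [Cnd_q_ge hx hc, hc.2 s] with i h1 h2
    exact ⟨h1, h2⟩

theorem leaveC {x : ℕ → ℕ} (hx : Tendsto x atTop atTop) {c : Cond} (hc : Good x c)
    (u : Idx → ℕ) :
    ∃ c' : Cond, Good x c' ∧ Le c' c ∧ ∀ᶠ i in Fil, u i ≤ x i.1 → c'.f i (u i) ≠ 0 := by
  classical
  obtain ⟨σ, hσ, hW⟩ := Cnd_diag hx hc
  have key : ∀ i, ∃ f' : ℕ → ℕ, (2 ≤ c.q i ∧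
      W (x i.1) (c.q i) (c.P i) (ack (σ i) (c.n i)) (c.n i) (c.f i)) →
      Ext (c.n i) (c.f i) (c.n i + 1) f' ∧ (u i ≤ x i.1 → f' (u i) ≠ 0) ∧
      W (x i.1) (c.q i) (c.P i) (ack (σ i) (c.n i) - 1) (c.n i + 1) f' := by
    intro i
    by_cases h : (2 ≤ c.q i ∧
      W (x i.1) (c.q i) (c.P i) (ack (σ i) (c.n i)) (c.n i) (c.f i))
    · obtain ⟨h2, hw⟩ := h
      have hpos : ack (σ i) (c.n i) = (ack (σ i) (c.n i) - 1) + 1 := by
        have := ack_pos (σ i) (c.n i)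
        omega
      rw [hpos] at hw
      by_cases hu : u i ≤ x i.1
      · obtain ⟨f', h1, h2', h3⟩ := W.leave h2 hw (u i) hu
        exact ⟨f', fun _ => ⟨h1, fun _ => h2', h3⟩⟩
      · obtain ⟨f', h1, h2', h3⟩ := W.leave h2 hw 0 (Nat.zero_le _)
        exact ⟨f', fun _ => ⟨h1, fun h => absurd h hu, h3⟩⟩
    · exact ⟨c.f i, fun h' => absurd h' h⟩
  choose f' hf' using key
  refine ⟨⟨fun i => c.n i + 1, f', c.q, c.P⟩, ⟨hc.1, fun s => ?_⟩, ?_, ?_⟩
  · filter_upwards [hW, hσ (s + 2)] with i h1 h2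
    obtain ⟨-, -, h3⟩ := hf' i h1
    refine W.mono (by omega) ?_ le_rfl (fun _ _ h => h) h3
    have a1 : ack s (c.n i + 1) ≤ ack (s + 1) (c.n i) := ack_succ_right_le_ack_succ_left s (c.n i)
    have a2 : ack (s + 1) (c.n i) < ack (s + 2) (c.n i) := ack_strictMono_left (c.n i) (by omega)
    have a3 : ack (s + 2) (c.n i) ≤ ack (σ i) (c.n i) := ack_le_ack h2 le_rfl
    show ack s (c.n i + 1) ≤ ack (σ i) (c.n i) - 1
    omega
  · filter_upwards [hW] with i h1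
    exact ⟨(hf' i h1).1, fun _ _ h => h⟩
  · filter_upwards [hW] with i h1
    exact (hf' i h1).2.1

theorem growC {x : ℕ → ℕ} (hx : Tendsto x atTop atTop) {c : Cond} (hc : Good x c) (s : ℕ) :
    ∃ c' : Cond, Good x c' ∧ Le c' c ∧ ∀ᶠ i in Fil, ack s (c.n i) ≤ c'.n i := by
  classical
  obtain ⟨σ, hσ, hW⟩ := Cnd_diag hx hc
  have key : ∀ i, ∃ f' : ℕ → ℕ, ((2 ≤ c.q i ∧
      W (x i.1) (c.q i) (c.P i) (ack (σ i) (c.n i)) (c.n i) (c.f i)) ∧ s ≤ σ i) →
      Ext (c.n i) (c.f i) (c.n i + ack s (c.n i)) f' ∧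
      W (x i.1) (c.q i) (c.P i) (ack (σ i) (c.n i) - ack s (c.n i)) (c.n i + ack s (c.n i)) f' := by
    intro i
    by_cases h : ((2 ≤ c.q i ∧
      W (x i.1) (c.q i) (c.P i) (ack (σ i) (c.n i)) (c.n i) (c.f i)) ∧ s ≤ σ i)
    · obtain ⟨⟨h2, hw⟩, hs⟩ := h
      have hle : ack s (c.n i) ≤ ack (σ i) (c.n i) := ack_le_ack hs le_rfl
      have hpos : ack (σ i) (c.n i) = (ack (σ i) (c.n i) - ack s (c.n i)) + ack s (c.n i) := by
        omega
      rw [hpos] at hw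
      obtain ⟨f', h1, h3⟩ := W.grow (by omega) hw
      exact ⟨f', fun _ => ⟨h1, h3⟩⟩
    · exact ⟨c.f i, fun h' => absurd h' h⟩
  choose f' hf' using key
  refine ⟨⟨fun i => c.n i + ack s (c.n i), f', c.q, c.P⟩, ⟨hc.1, fun t => ?_⟩, ?_, ?_⟩
  · -- ack t (n + ack s n) + ack s n ≤ ack r n for a constant r
    set a := max 2 s + 2 with ha
    set b := max t a + 2 with hb
    set d := max 2 b + 2 with hd
    filter_upwards [hW, hσ (max s d)] with i h1 h2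
    have hs : s ≤ σ i := le_trans (le_max_left _ _) h2
    have hd2 : d ≤ σ i := le_trans (le_max_right _ _) h2
    obtain ⟨-, h3⟩ := hf' i ⟨h1, hs⟩
    refine W.mono (by omega) ?_ le_rfl (fun _ _ h => h) h3
    show ack t (c.n i + ack s (c.n i)) ≤ ack (σ i) (c.n i) - ack s (c.n i)
    have e1 : c.n i < ack s (c.n i) := lt_ack_right s (c.n i)
    have e2 : ack 2 (ack s (c.n i)) = 2 * ack s (c.n i) + 3 := ack_two _
    have e3 : ack 2 (ack s (c.n i)) < ack a (c.n i) := ack_ack_lt_ack_max_add_two 2 s (c.n i)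
    have e4 : ack t (c.n i + ack s (c.n i)) ≤ ack t (ack a (c.n i)) :=
      ack_mono_right t (by omega)
    have e5 : ack t (ack a (c.n i)) < ack b (c.n i) := ack_ack_lt_ack_max_add_two t a (c.n i)
    have e6 : ack 2 (ack b (c.n i)) = 2 * ack b (c.n i) + 3 := ack_two _
    have e7 : ack 2 (ack b (c.n i)) < ack d (c.n i) := ack_ack_lt_ack_max_add_two 2 b (c.n i)
    have e8 : ack d (c.n i) ≤ ack (σ i) (c.n i) := ack_le_ack hd2 le_rfl
    have e9 : ack a (c.n i) ≤ ack b (c.n i) := ack_le_ack (by omega) le_rfl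
    omega
  · filter_upwards [hW, hσ s] with i h1 h2
    exact ⟨(hf' i ⟨h1, h2⟩).1, fun _ _ h => h⟩
  · filter_upwards with i
    show ack s (c.n i) ≤ c.n i + ack s (c.n i)
    omega

theorem initC {x y q : ℕ → ℕ} (hxq : ∀ j, x j = q j ^ 2)
    (hq : ∀ s j, s < j → ack s (y j + 1) ≤ q j) :
    Good x ⟨fun i => y i.1 + 1, fun _ _ => 0, fun i => q i.1, fun _ _ _ => True⟩ := by
  refine ⟨⟨2, ?_⟩, fun s => ?_⟩
  · filter_upwards with i
    show x i.1 ≤ q i.1 ^ 2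
    rw [hxq]
  · rw [eventually_Fil]
    refine ⟨s + 1, fun j hj ρ => ?_⟩
    show W (x j) (q j) (fun _ _ => True) (ack s (y j + 1)) (y j + 1) (fun _ => 0)
    apply W.init
    rw [hxq, sq]
    exact Nat.mul_le_mul_right _ (hq s j (by omega))

/-- Levels stay below `x`. -/
theorem Good.level_le {x : ℕ → ℕ} (hx : Tendsto x atTop atTop) {c : Cond} (hc : Good x c) :
    ∀ᶠ i in Fil, c.n i ≤ x i.1 := by
  filter_upwards [Cnd_q_ge hx hc, hc.2 0] with i h1 h2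
  have := W.bound h1 h2
  rw [ack_zero] at this
  omega

/-- The predicate holds at the current state. -/
theorem Good.pred {x : ℕ → ℕ} {c : Cond} (hc : Good x c) :
    ∀ᶠ i in Fil, c.P i (c.n i) (c.f i) := by
  filter_upwards [hc.2 0] with i h
  exact h.pred

/-- Some element is still in. -/
theorem Good.exists_alive {x : ℕ → ℕ} (hx : Tendsto x atTop atTop) {c : Cond} (hc : Good x c) :
    ∀ᶠ i in Fil, ∃ u, alive (x i.1) (c.f i) u := by
  filter_upwards [Cnd_q_ge hx hc, hc.2 0] with i h1 h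
  exact h.exists_alive (by omega)

end Pool.Agent.ParisQ
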