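import Pool.Agent.ParisQ.Game

/-! Simultaneous decisions in the avoidance game. -/

namespace Pool.Agent.ParisQ

/-- Simultaneous decisions: if the Hitter wins, for every `a ∈ A`, the `m`-step game with bound `q'`
in which the Avoider must in addition keep `Q a`, then the Avoider of the game for `P` can be
forced in `m` steps out of all the `Q a` at once. -/
theorem W.decide {x q q' : ℕ} {P : ℕ → (ℕ → ℕ) → Prop} {Q : ℕ → ℕ → (ℕ → ℕ) → Prop}
    (A : Finset ℕ) (hq' : 1 ≤ q') (hq : 1 ≤ q) (hA : A.card * q' ≤ q)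
    (hQ : ∀ a ∈ A, ∀ n f n' f', Ext n f n' f' → ¬ Q a n f → ¬ Q a n' f')
    {h m n : ℕ} {f : ℕ → ℕ} (hW : W x q P (h + m) n f)
    (hL : ∀ a ∈ A, ¬ W x q' (fun n f => P n f ∧ Q a n f) m n f) :
    ∃ f', Ext n f (n + m) f' ∧ W x q P h (n + m) f' ∧ ∀ a ∈ A, ¬ Q a (n + m) f' := by
  classical
  induction m generalizing n f with
  | zero =>
      refine ⟨f, Ext.refl n f, hW, ?_⟩
      intro a ha hQa
      exact hL a ha ⟨⟨hW.pred, hQa⟩, hW.exists_alive hq⟩
  | succ m ih =>
      have hP : P n f := hW.pred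
      have hW' : W x q P ((h + m) + 1) n f := hW
      have key : ∀ a : ℕ, ∃ U : Finset ℕ, U.card ≤ q' - 1 ∧ (a ∈ A → Q a n f →
          ∀ f', Ext n f (n + 1) f' → (∀ u ∈ U, ¬ alive x f' u) →
            ¬ W x q' (fun n f => P n f ∧ Q a n f) m (n + 1) f') := by
        intro a
        by_cases ha : a ∈ A ∧ Q a n f
        · obtain ⟨ha, hQa⟩ := ha
          have h1 := hL a ha
          have h2 : ¬ ∀ U : Finset ℕ, U.card < q' → ∃ f', Ext n f (n + 1) f' ∧
              (∀ u ∈ U, ¬ alive x f' u) ∧ W x q' (fun n f => P n f ∧ Q a n f) m (n + 1) f' :=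
            fun h3 => h1 ⟨⟨hP, hQa⟩, h3⟩
          push Not at h2
          obtain ⟨U, hU, h3⟩ := h2
          exact ⟨U, by omega, fun _ _ f' h4 h5 => h3 f' h4 h5⟩
        · exact ⟨∅, by simp, fun h1 h2 => absurd ⟨h1, h2⟩ ha⟩
      choose U hU hU' using key
      have hcard : (A.biUnion U).card < q := by
        rcases Nat.eq_zero_or_pos A.card with h0 | h0
        · have : A = ∅ := Finset.card_eq_zero.1 h0
          subst this
          simp; omega
        · calc (A.biUnion U).card ≤ A.card * (q' - 1) := Finset.card_biUnion_le_card_mul _ _ _ (fun a _ => hU a)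
            _ < A.card * q' := Nat.mul_lt_mul_of_pos_left (by omega) h0
            _ ≤ q := hA
      obtain ⟨f1, hE, hdead, hW1⟩ := hW'.2 (A.biUnion U) hcard
      have hL1 : ∀ a ∈ A, ¬ W x q' (fun n f => P n f ∧ Q a n f) m (n + 1) f1 := by
        intro a ha
        by_cases hQa : Q a n f
        · exact hU' a ha hQa f1 hE (fun u hu => hdead u (Finset.mem_biUnion.2 ⟨a, ha, hu⟩))
        · intro hWa
          exact hQ a ha n f (n + 1) f1 hE hQa hWa.pred.2
      obtain ⟨f', hE', hW2, hnQ⟩ := ih hW1 hL1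
      have he : n + 1 + m = n + (m + 1) := by omega
      rw [he] at hE' hW2 hnQ
      exact ⟨f', hE.trans hE', hW2, hnQ⟩

end Pool.Agent.ParisQ
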