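import Pool.Agent.ParisQ.Truth
import Pool.Agent.ParisQ.AckP

/-! The properties of the model. -/

open Filter

namespace Pool.Agent.ParisQ

theorem pers_Dec {g : ℕ → ℕ} {P : ℕ → ℕ → ℕ → ℕ → Prop} {x : ℕ → ℕ} {α : Fm} {D : ℕ} {i : Idx}
    {m0 : ℕ} {l : List ℕ} {b : ℕ} (hα : α.Delta0) (hD : α.deg ≤ D) (hx : 2 ≤ x i.1)
    (hm0 : 1 ≤ m0) (hb : b ≤ x i.1 ^ m0) (hl : ∀ a ∈ l, a ≤ x i.1 ^ m0) :
    Pers b (Dec g P x α D i m0 l) := by
  intro a ha n f n' f' hext hdec
  obtain ⟨m, hm, hDm, t, ht, hold⟩ := hdec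
  refine ⟨m, hm, hDm.trans hext.1, t, ht, ?_⟩
  have hx1 : 1 ≤ x i.1 := by omega
  have hmono : x i.1 ^ m0 ≤ x i.1 ^ m := Nat.pow_le_pow_right hx1 hm
  have hz : 2 ≤ x i.1 ^ m := by
    calc 2 ≤ x i.1 := hx
      _ = x i.1 ^ 1 := (pow_one _).symm
      _ ≤ _ := Nat.pow_le_pow_right hx1 (by omega)
  have hz2 : (x i.1 ^ m) ^ α.deg ≤ x i.1 ^ n := by
    rw [← pow_mul]
    refine Nat.pow_le_pow_right hx1 ?_
    calc m * α.deg ≤ m * D := Nat.mul_le_mul_left _ hD
      _ = D * m := by ring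
      _ ≤ n := hDm
  rw [← Fm.holds_congr α hα (stdI g (orc x i f) P) (stdI g (orc x i f') P) (x i.1 ^ m) hz]
  · exact hold
  · intro c hc
    simp only [List.mem_cons] at hc
    rcases hc with rfl | rfl | hc
    · exact ht
    · exact ha.trans (hb.trans hmono)
    · exact (hl c hc).trans hmono
  · intro s u v w hu hv hw
    match s with
    | 0 => exact Iff.rfl
    | 1 => exact Iff.rfl
    | 2 =>
      change orc x i f u v w ↔ orc x i f' u v w
      unfold orc
      rw [Rel_congr hx hext (hw.trans hz2)]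
    | s + 3 => exact Iff.rfl

namespace Stp

variable {g : ℕ → ℕ} {P : ℕ → ℕ → ℕ → ℕ → Prop} (S : Stp g P)

theorem dec_to_M {α : Fm} {D : ℕ} (hα : α.Delta0) (hD : α.deg ≤ D) (a : S.MM) (p : List S.MM)
    (k k' : ℕ) (ha : ∀ᶠ j in (UU : Filter ℕ), S.rp a j ≤ S.x j ^ (S.c k).n (S.br j))
    (hp : ∀ᶠ j in (UU : Filter ℕ), ∀ b ∈ S.ev p j, b ≤ S.x j ^ (S.c k).n (S.br j))
    (h : ∀ᶠ j in (UU : Filter ℕ), Dec g P S.x α D (S.br j) ((S.c k).n (S.br j)) (S.ev p j)
      (S.rp a j) ((S.c k').n (S.br j)) ((S.c k').f (S.br j))) :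
    ∃ t : S.MM, α.holds S.II (t :: a :: p) := by
  have hDpos : 1 ≤ D := (Fm.deg_pos α).trans hD
  obtain ⟨m0, hm0, hm0'⟩ := S.close .lev [] (by simp) k
  have hm1 : ∀ i, m0 i = (S.c k).n i := by
    intro i
    have := hm0' i ⟨_, rfl⟩
    simpa [TT] using this
  obtain ⟨z, hz, hz2⟩ := S.close (.tw α D) (m0 :: S.aF a :: p.map S.aF) (by
    intro b hb
    simp only [List.mem_cons] at hb
    rcases hb with rfl | rfl | hb
    · exact hm0
    · exact S.aF_mem a
    · exact S.mem_map_aF p b hb) k'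
  have key : ∀ᶠ j in (UU : Filter ℕ), z (S.br j) ≤ S.x j ^ (S.c k').n (S.br j) ∧
      α.holds (stdI g S.A P) (z (S.br j) :: S.rp a j :: S.ev p j) := by
    filter_upwards [ha, hp, h, S.agr k', S.y_lt k] with j h1 h2 h3 h4 h5
    obtain ⟨m, hm, hDm, t, ht, hold⟩ := h3
    have hlist : (m0 :: S.aF a :: p.map S.aF).map (fun a => a (S.br j)) =
        (S.c k).n (S.br j) :: S.rp a j :: S.ev p j := by
      simp [hm1, ev, rp]
    have h6 := hz2 (S.br j)
    rw [hlist] at h6
    have h7 := h6 ⟨t, m, by simpa using hm, hDm, ht, by simpa using hold⟩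
    obtain ⟨m', hm', hDm', hzm', hold'⟩ := h7
    simp only [List.getD_cons_zero, List.tail_cons] at hm' hold'
    have hx1 := S.one_le_x j
    have hmono : S.x j ^ (S.c k).n (S.br j) ≤ S.x j ^ m' := Nat.pow_le_pow_right hx1 hm'
    have hz3 : 2 ≤ S.x j ^ m' := by
      calc 2 ≤ S.x j := S.hx2 j
        _ = S.x j ^ 1 := (pow_one _).symm
        _ ≤ _ := Nat.pow_le_pow_right hx1 (by omega)
    have hz4 : (S.x j ^ m') ^ α.deg ≤ S.x j ^ (S.c k').n (S.br j) := by
      rw [← pow_mul]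
      refine Nat.pow_le_pow_right hx1 ?_
      calc m' * α.deg ≤ m' * D := Nat.mul_le_mul_left _ hD
        _ = D * m' := by ring
        _ ≤ _ := hDm'
    refine ⟨?_, ?_⟩
    · calc z (S.br j) ≤ S.x j ^ m' := hzm'
        _ ≤ _ := by
          refine Nat.pow_le_pow_right hx1 ?_
          calc m' = 1 * m' := (one_mul _).symm
            _ ≤ D * m' := Nat.mul_le_mul_right _ hDpos
            _ ≤ _ := hDm'
    · refine (h4 α hα (S.x j ^ m') hz3 _ ?_ hz4).mpr hold'
      intro b hb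
      simp only [List.mem_cons] at hb
      rcases hb with rfl | rfl | hb
      · exact hzm'
      · exact h1.trans hmono
      · exact (h2 b hb).trans hmono
  obtain ⟨t, ht⟩ := S.mk_elt hz (k := k') (key.mono fun j hj => hj.1)
  refine ⟨t, ?_⟩
  rw [S.holds_iff α hα]
  filter_upwards [key, ht] with j h1 h2
  have : S.ev (t :: a :: p) j = z (S.br j) :: S.rp a j :: S.ev p j := by
    simp [ev, h2]
  rw [this]
  exact h1.2

theorem M_to_dec {α : Fm} {D : ℕ} (hα : α.Delta0) (hD : α.deg ≤ D) (t a : S.MM) (p : List S.MM)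
    (k k₁ : ℕ) (h : α.holds S.II (t :: a :: p)) :
    ∃ k', k₁ ≤ k' ∧
      ∀ᶠ j in (UU : Filter ℕ), Dec g P S.x α D (S.br j) ((S.c k).n (S.br j)) (S.ev p j)
        (S.rp a j) ((S.c k').n (S.br j)) ((S.c k').f (S.br j)) := by
  obtain ⟨k0, hk0⟩ := S.exists_bd (t :: a :: p)
  obtain ⟨k', hk', hlev⟩ := S.mul_level D (max k k0) k₁
  refine ⟨k', hk', ?_⟩
  rw [S.holds_iff α hα] at h
  filter_upwards [h, hk0 (max k k0) (le_max_right _ _), hlev, S.agr k', S.y_lt (max k k0),
    S.n_mono (le_max_left k k0)] with j h1 h2 h3 h4 h5 h6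
  have hx1 := S.one_le_x j
  set m := (S.c (max k k0)).n (S.br j) with hm
  have hlist : S.ev (t :: a :: p) j = S.rp t j :: S.rp a j :: S.ev p j := by
    simp [ev]
  rw [hlist] at h1 h2
  have hz3 : 2 ≤ S.x j ^ m := by
    calc 2 ≤ S.x j := S.hx2 j
      _ = S.x j ^ 1 := (pow_one _).symm
      _ ≤ _ := Nat.pow_le_pow_right hx1 (by omega)
  have hz4 : (S.x j ^ m) ^ α.deg ≤ S.x j ^ (S.c k').n (S.br j) := by
    rw [← pow_mul]
    refine Nat.pow_le_pow_right hx1 ?_
    calc m * α.deg ≤ m * D := Nat.mul_le_mul_left _ hD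
      _ = D * m := by ring
      _ ≤ _ := h3
  refine ⟨m, h6, h3, S.rp t j, h2 _ (by simp), ?_⟩
  exact (h4 α hα (S.x j ^ m) hz3 _ h2 hz4).mp h1

theorem deltaOneInd : DeltaOneInd S.II := by
  intro φ ψ hφ hψ p H1 H2 H3 b
  obtain ⟨α, hα, hα'⟩ := Sigma1.normal φ hφ
  obtain ⟨β, hβ, hβ'⟩ := Pi1.normal ψ hψ
  simp only [hα', hβ'] at H1 H2 H3 ⊢
  set D := max α.deg β.deg with hD
  obtain ⟨k0, hk0⟩ := S.exists_bd (b :: p)
  obtain ⟨k, hk, i₀, hi₀, hmeet⟩ := S.meet α β (p.map S.aF) (S.mem_map_aF p) (S.aF b)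
    (S.aF_mem b) k0
  have hbd := hk0 k hk
  have hb : ∀ᶠ j in (UU : Filter ℕ), S.rp b j ≤ S.x j ^ (S.c k).n (S.br j) := by
    filter_upwards [hbd] with j hj
    exact hj _ (by simp [ev])
  have hp : ∀ᶠ j in (UU : Filter ℕ), ∀ c ∈ S.ev p j, c ≤ S.x j ^ (S.c k).n (S.br j) := by
    filter_upwards [hbd] with j hj c hc
    refine hj c ?_
    have : S.ev (b :: p) j = S.rp b j :: S.ev p j := by simp [ev]
    rw [this]
    exact List.mem_cons_of_mem _ hc
  have hmain : ∀ᶠ j in (UU : Filter ℕ), i₀ (S.br j) ≤ S.rp b j ∧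
      ((∀ n f, (S.c (k + 1)).P (S.br j) n f →
          ¬ Dec g P S.x α D (S.br j) ((S.c k).n (S.br j)) (S.ev p j) (i₀ (S.br j)) n f ∧
          ¬ Dec g P S.x β D (S.br j) ((S.c k).n (S.br j)) (S.ev p j) (i₀ (S.br j)) n f) ∨
        Out (S.rp b j) (Dec g P S.x α D (S.br j) ((S.c k).n (S.br j)) (S.ev p j))
          (Dec g P S.x β D (S.br j) ((S.c k).n (S.br j)) (S.ev p j)) (i₀ (S.br j))
          ((S.c (k + 1)).n (S.br j)) ((S.c (k + 1)).f (S.br j))) := by
    filter_upwards [S.of_Fil hmeet, hb, hp, S.y_lt k] with j h1 h2 h3 h4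
    rw [S.map_aF] at h1
    exact h1 h2 (pers_Dec hα (le_max_left _ _) (S.hx2 j) (by omega) h2 h3)
      (pers_Dec hβ (le_max_right _ _) (S.hx2 j) (by omega) h2 h3)
  obtain ⟨im, him⟩ := S.mk_elt hi₀ (k := k) (by
    unfold Bd
    filter_upwards [hmain, hb] with j h1 h2
    exact h1.1.trans h2)
  have him' : ∀ᶠ j in (UU : Filter ℕ), S.rp im j ≤ S.x j ^ (S.c k).n (S.br j) := by
    filter_upwards [hmain, hb, him] with j h1 h2 h3
    rw [h3]
    exact h1.1.trans h2
  have hsplit := hmain.mono fun j hj => hj.2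
  rw [Ultrafilter.eventually_or] at hsplit
  rcases hsplit with hund | hout
  · -- undecided for ever
    exfalso
    have noα : ¬ ∃ t : S.MM, α.holds S.II (t :: im :: p) := by
      rintro ⟨t, ht⟩
      obtain ⟨k', hk', hdec⟩ := S.M_to_dec hα (le_max_left _ _) t im p k (k + 1) ht
      have hle := S.of_Fil (S.le_le hk')
      have hpred := S.of_Fil (S.good k').pred
      have : ∀ᶠ j in (UU : Filter ℕ), False := by
        filter_upwards [hund, hdec, hle, hpred, him] with j h1 h2 h3 h4 h5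
        rw [h5] at h2
        exact (h1 _ _ (h3.2 _ _ h4)).1 h2
      exact this.exists.choose_spec
    have noβ : ¬ ∃ t : S.MM, β.holds S.II (t :: im :: p) := by
      rintro ⟨t, ht⟩
      obtain ⟨k', hk', hdec⟩ := S.M_to_dec hβ (le_max_right _ _) t im p k (k + 1) ht
      have hle := S.of_Fil (S.le_le hk')
      have hpred := S.of_Fil (S.good k').pred
      have : ∀ᶠ j in (UU : Filter ℕ), False := by
        filter_upwards [hund, hdec, hle, hpred, him] with j h1 h2 h3 h4 h5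
        rw [h5] at h2
        exact (h1 _ _ (h3.2 _ _ h4)).2 h2
      exact this.exists.choose_spec
    exact noα ((H1 im).mpr noβ)
  · unfold Out at hout
    rw [Ultrafilter.eventually_or] at hout
    rcases hout with hY0 | hout
    · exfalso
      have h0 : ∃ t : S.MM, β.holds S.II (t :: 0 :: p) := by
        refine S.dec_to_M hβ (le_max_right α.deg β.deg) 0 p k (k + 1) ?_ hp ?_
        · filter_upwards [S.rp_zero] with j hj
          rw [hj]
          exact Nat.zero_le _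
        · filter_upwards [hY0, S.rp_zero] with j h1 h2
          rw [h2]
          exact h1.2
      exact (H1 0).mp H2 h0
    rw [Ultrafilter.eventually_or] at hout
    rcases hout with hXb | hout
    · refine S.dec_to_M hα (le_max_left α.deg β.deg) b p k (k + 1) hb hp ?_
      exact hXb.mono fun j hj => hj.2
    rw [Ultrafilter.eventually_or] at hout
    rcases hout with hXY | hXY
    · exfalso
      have h1 : ∃ t : S.MM, α.holds S.II (t :: im :: p) := by
        refine S.dec_to_M hα (le_max_left α.deg β.deg) im p k (k + 1) him' hp ?_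
        filter_upwards [hXY, him] with j h1 h2
        rw [h2]
        exact h1.2.1
      have h2 : ∃ t : S.MM, β.holds S.II (t :: (im + 1) :: p) := by
        refine S.dec_to_M hβ (le_max_right α.deg β.deg) (im + 1) p k (k + 1) ?_ hp ?_
        · filter_upwards [hXY, him, hb, S.rp_add im 1, S.rp_one] with j h1 h2 h3 h4 h5
          rw [h4, h5, h2]
          omega
        · filter_upwards [hXY, him, S.rp_add im 1, S.rp_one] with j h1 h2 h4 h5
          rw [h4, h5, h2]
          exact h1.2.2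
      exact (H1 (im + 1)).mp (H3 im h1) h2
    · exfalso
      have h1 : ∃ t : S.MM, α.holds S.II (t :: im :: p) := by
        refine S.dec_to_M hα (le_max_left α.deg β.deg) im p k (k + 1) him' hp ?_
        filter_upwards [hXY, him] with j h1 h2
        rw [h2]
        exact h1.1
      have h2 : ∃ t : S.MM, β.holds S.II (t :: im :: p) := by
        refine S.dec_to_M hβ (le_max_right α.deg β.deg) im p k (k + 1) him' hp ?_
        filter_upwards [hXY, him] with j h1 h2
        rw [h2]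
        exact h1.2
      exact (H1 im).mp h1 h2

theorem transfer (φ : Fm) (hφ : Pi1 φ) (h : φ.holds (stdI g S.A P) []) :
    φ.holds S.II [] := by
  obtain ⟨β, hβ, hβ'⟩ := Pi1.normal φ hφ
  rw [hβ'] at h ⊢
  rintro ⟨t, ht⟩
  rw [S.holds_iff β hβ] at ht
  obtain ⟨j, hj⟩ := ht.exists
  exact h ⟨S.rp t j, by simpa [ev] using hj⟩

theorem growth (a : S.MM) : ∃ y z : S.MM, S.II 1 a y 0 ∧ S.II 0 a y z := by
  obtain ⟨k, hk⟩ := S.bd_rp a
  obtain ⟨k', hk', hsq⟩ := S.sq_level k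
  obtain ⟨ys, hys, hys2⟩ := S.close .yy [] (by simp) 0
  have hy1 : ∀ i, ys i = S.y i.1 := by
    intro i
    have := hys2 i ⟨_, rfl⟩
    simpa [TT] using this
  obtain ⟨zs, hzs, hzs2⟩ := S.close .pow [S.aF a, ys] (by simp [S.aF_mem, hys]) 0
  have hz1 : ∀ i, zs i = S.aF a i ^ ys i := by
    intro i
    have := hzs2 i ⟨_, rfl⟩
    simpa [TT] using this
  have hby : S.Bd k (fun j => ys (S.br j)) := by
    unfold Bd
    filter_upwards [S.y_lt k] with j hj
    rw [hy1]
    have h1 : (S.c k).n (S.br j) < S.x j ^ (S.c k).n (S.br j) :=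
      Nat.lt_pow_self (lt_of_lt_of_le (by norm_num) (S.hx2 j))
    exact (hj.trans h1).le
  have hbz : S.Bd k' (fun j => zs (S.br j)) := by
    unfold Bd at *
    filter_upwards [hk, S.y_lt k, hsq] with j h1 h2 h3
    rw [hz1, hy1]
    calc S.aF a (S.br j) ^ S.y (S.br j).1 ≤ (S.x j ^ (S.c k).n (S.br j)) ^ S.y (S.br j).1 :=
          Nat.pow_le_pow_left h1 _
      _ = S.x j ^ ((S.c k).n (S.br j) * S.y (S.br j).1) := by rw [← pow_mul]
      _ ≤ S.x j ^ ((S.c k).n (S.br j) * (S.c k).n (S.br j)) :=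
          Nat.pow_le_pow_right (S.one_le_x j) (Nat.mul_le_mul_left _ h2.le)
      _ ≤ _ := Nat.pow_le_pow_right (S.one_le_x j) h3
  obtain ⟨ym, hym⟩ := S.mk_elt hys hby
  obtain ⟨zm, hzm⟩ := S.mk_elt hzs hbz
  refine ⟨ym, zm, ?_, ?_⟩
  · unfold II
    unfold Bd at hk
    filter_upwards [hk, hym, S.n_le_x k] with j h1 h2 h3
    change S.rp a j < g (S.rp ym j)
    rw [h2, hy1]
    calc S.rp a j ≤ S.x j ^ (S.c k).n (S.br j) := h1
      _ ≤ S.x j ^ S.x j := Nat.pow_le_pow_right (S.one_le_x j) h3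
      _ < _ := S.hxg j
  · unfold II
    filter_upwards [hym, hzm] with j h1 h2
    change S.rp zm j = S.rp a j ^ S.rp ym j
    rw [h1, h2, hz1]
    rfl

theorem f_le (k : ℕ) : ∀ᶠ j in (UU : Filter ℕ), ∀ u,
    (S.c k).f (S.br j) u ≤ (S.c k).n (S.br j) := by
  filter_upwards [S.of_Fil (S.le_le (Nat.zero_le k))] with j hj u
  rcases hj.1.2 u with h | h
  · rw [h, S.init_f]
    exact Nat.zero_le _
  · exact h.2.2

theorem not_coll : ¬ SigmaOneColl S.II := by
  intro hcoll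
  obtain ⟨xs, hxs, hxs2⟩ := S.close .xx [] (by simp) 0
  have hx1 : ∀ i, xs i = S.x i.1 := by
    intro i
    have := hxs2 i ⟨_, rfl⟩
    simpa [TT] using this
  have hbx : S.Bd 0 (fun j => xs (S.br j)) := by
    unfold Bd
    filter_upwards [S.y_lt 0] with j hj
    rw [hx1]
    calc S.x j = S.x j ^ 1 := (pow_one _).symm
      _ ≤ _ := Nat.pow_le_pow_right (S.one_le_x j) (by omega)
  obtain ⟨xm, hxm⟩ := S.mk_elt hxs hbx
  have hxm1 : ∀ᶠ j in (UU : Filter ℕ), S.rp xm j = S.x j := by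
    filter_upwards [hxm] with j hj
    rw [hj, hx1]
    rfl
  have h := hcoll (.base 2 (.var 2) (.var 1) (.var 0)) (Sigma1.delta trivial) [xm] xm ?_
  · obtain ⟨t, ht⟩ := h
    obtain ⟨k, hk⟩ := S.bd_rp t
    obtain ⟨us, hus, hus2⟩ := S.close .aliv [] (by simp) k
    have hal : ∀ᶠ j in (UU : Filter ℕ), alive (S.x j) ((S.c k).f (S.br j)) (us (S.br j)) := by
      filter_upwards [S.of_Fil ((S.good k).exists_alive S.hx)] with j hj
      exact hus2 (S.br j) hj
    have hbu : S.Bd 0 (fun j => us (S.br j)) := by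
      unfold Bd at *
      filter_upwards [hal, hbx] with j h1 h2
      refine le_trans ?_ h2
      rw [hx1]
      exact h1.1
    obtain ⟨um, hum⟩ := S.mk_elt hus hbu
    have hle : um ≤ xm := by
      rw [S.le_iff]
      filter_upwards [hum, hxm1, hal] with j h1 h2 h3
      rw [h1, h2]
      exact h3.1
    obtain ⟨v, hv, hrel⟩ := ht um hle
    have hrel' : ∀ᶠ j in (UU : Filter ℕ), S.A (S.rp xm j) (S.rp um j) (S.rp v j) := hrel
    rw [S.lt_iff] at hv
    unfold Bd at hk hbu hbx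
    have : ∀ᶠ j in (UU : Filter ℕ), False := by
      filter_upwards [hrel', hv, hk, hxm1, hum, hal, UU_of_atTop (S.agree k), S.y_lt k]
        with j h1 h2 h3 h4 h5 h6 h7 h8
      rw [h4, h5] at h1
      have hx2 : S.x j ≤ S.x j ^ (S.c k).n (S.br j) := by
        calc S.x j = S.x j ^ 1 := (pow_one _).symm
          _ ≤ _ := Nat.pow_le_pow_right (S.one_le_x j) (by omega)
      have h9 := (h7 _ _ _ hx2 (h6.1.trans hx2) (h2.le.trans h3)).mp h1
      unfold orc at h9
      rcases h9 with h9 | h9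
      · exact lt_irrefl _ (S.pa_lt _ _ _ _ h9)
      · exact h9.2.2.1 h6.2
    exact this.exists.choose_spec
  · intro u hu
    obtain ⟨k, hk⟩ := S.leave (S.aF u) (S.aF_mem u)
    obtain ⟨vs, hvs, hvs2⟩ := S.close .out [S.aF u] (by simp [S.aF_mem]) k
    have hv1 : ∀ i, vs i = S.x i.1 ^ (S.c k).f i (S.aF u i) := by
      intro i
      have := hvs2 i ⟨_, rfl⟩
      simpa [TT] using this
    have hbv : S.Bd k (fun j => vs (S.br j)) := by
      unfold Bd
      filter_upwards [S.f_le k] with j hj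
      rw [hv1]
      exact Nat.pow_le_pow_right (S.one_le_x j) (hj _)
    obtain ⟨vm, hvm⟩ := S.mk_elt hvs hbv
    refine ⟨vm, ?_⟩
    change ∀ᶠ j in (UU : Filter ℕ), S.A (S.rp xm j) (S.rp u j) (S.rp vm j)
    rw [S.le_iff] at hu
    unfold Bd at hbv
    filter_upwards [hu, hxm1, hvm, hbv, S.of_Fil hk, UU_of_atTop (S.agree k), S.y_lt k]
      with j h1 h2 h3 h4 h5 h6 h7
    rw [h2] at h1 ⊢
    rw [h3]
    have hx2 : S.x j ≤ S.x j ^ (S.c k).n (S.br j) := by
      calc S.x j = S.x j ^ 1 := (pow_one _).symm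
        _ ≤ _ := Nat.pow_le_pow_right (S.one_le_x j) (by omega)
    refine (h6 _ _ _ hx2 (h1.trans hx2) h4).mpr ?_
    right
    refine ⟨rfl, h1, h5 h1, ?_⟩
    rw [hv1]
    rfl

end Stp

end Pool.Agent.ParisQ
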