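import Mathlib

/-! The avoidance game.

A state is a level `n` and a function `f : ℕ → ℕ`; `f u = 0` means that `u` is still in, otherwise
`f u ≤ n` is the level at which `u` left.  In one step the Hitter names a set `U` of fewer than `q`
elements and the Avoider passes to the next level, letting some elements leave, at least all
elements of `U`; the state must satisfy `P` and some `u ≤ x` must still be in. -/

namespace Pool.Agent.ParisQ

/-- `f'` at level `n'` extends `f` at level `n`. -/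
def Ext (n : ℕ) (f : ℕ → ℕ) (n' : ℕ) (f' : ℕ → ℕ) : Prop :=
  n ≤ n' ∧ ∀ u, f' u = f u ∨ (f u = 0 ∧ n < f' u ∧ f' u ≤ n')

/-- `u ≤ x` is still in. -/
def alive (x : ℕ) (f : ℕ → ℕ) (u : ℕ) : Prop := u ≤ x ∧ f u = 0

/-- The Avoider survives `h` steps from the state `(n, f)`. -/
def W (x q : ℕ) (P : ℕ → (ℕ → ℕ) → Prop) : ℕ → ℕ → (ℕ → ℕ) → Prop
  | 0, n, f => P n f ∧ ∃ u, alive x f u
  | h + 1, n, f => P n f ∧ ∀ U : Finset ℕ, U.card < q →
      ∃ f', Ext n f (n + 1) f' ∧ (∀ u ∈ U, ¬ alive x f' u) ∧ W x q P h (n + 1) f'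

theorem Ext.refl (n : ℕ) (f : ℕ → ℕ) : Ext n f n f := ⟨le_rfl, fun _ => Or.inl rfl⟩

theorem Ext.trans {n n' n'' : ℕ} {f f' f'' : ℕ → ℕ} (h : Ext n f n' f') (h' : Ext n' f' n'' f'') :
    Ext n f n'' f'' := by
  refine ⟨h.1.trans h'.1, fun u => ?_⟩
  have h1 := h.2 u
  have h2 := h'.2 u
  have h3 := h.1
  have h4 := h'.1
  omega

theorem W.pred {x q : ℕ} {P : ℕ → (ℕ → ℕ) → Prop} {h n : ℕ} {f : ℕ → ℕ}
    (hW : W x q P h n f) : P n f := by
  cases h with
  | zero => exact hW.1
  | succ h => exact hW.1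

theorem W.exists_alive {x q : ℕ} {P : ℕ → (ℕ → ℕ) → Prop} {h n : ℕ} {f : ℕ → ℕ}
    (hq : 1 ≤ q) (hW : W x q P h n f) : ∃ u, alive x f u := by
  induction h generalizing n f with
  | zero => exact hW.2
  | succ h ih =>
    obtain ⟨f', h1, -, h3⟩ := hW.2 ∅ (by simp; omega)
    obtain ⟨u, hu, hu'⟩ := ih h3
    refine ⟨u, hu, ?_⟩
    have := h1.2 u
    omega

theorem W.mono {x q q' : ℕ} {P P' : ℕ → (ℕ → ℕ) → Prop} {h h' n : ℕ} {f : ℕ → ℕ}
    (hq : 1 ≤ q) (hh : h' ≤ h) (hqq : q' ≤ q) (hP : ∀ n f, P n f → P' n f)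
    (hW : W x q P h n f) : W x q' P' h' n f := by
  induction h generalizing n f h' with
  | zero =>
    obtain rfl : h' = 0 := by omega
    exact ⟨hP _ _ hW.1, hW.2⟩
  | succ h ih =>
    cases h' with
    | zero => exact ⟨hP _ _ hW.pred, hW.exists_alive hq⟩
    | succ h' =>
      refine ⟨hP _ _ hW.1, fun U hU => ?_⟩
      obtain ⟨f', h1, h2, h3⟩ := hW.2 U (by omega)
      exact ⟨f', h1, h2, ih (by omega) h3⟩

theorem Game_card {x q : ℕ} {P : ℕ → (ℕ → ℕ) → Prop} {h n : ℕ} {f : ℕ → ℕ}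
    (hq : 2 ≤ q) (hW : W x q P h n f) :
    h + 1 ≤ ((Finset.range (x + 1)).filter (fun u => f u = 0)).card := by
  induction h generalizing n f with
  | zero =>
    obtain ⟨u, hu, hu'⟩ := hW.2
    apply Finset.card_pos.2
    exact ⟨u, by rw [Finset.mem_filter, Finset.mem_range]; exact ⟨by omega, hu'⟩⟩
  | succ h ih =>
    obtain ⟨u, hu, hu'⟩ := hW.exists_alive (by omega)
    obtain ⟨f', h1, h2, h3⟩ := hW.2 {u} (by simp; omega)
    have h4 := ih h3
    have h5 : (Finset.range (x + 1)).filter (fun u => f' u = 0) ⊂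
        (Finset.range (x + 1)).filter (fun u => f u = 0) := by
      rw [Finset.ssubset_iff_of_subset]
      · refine ⟨u, ?_, ?_⟩
        · rw [Finset.mem_filter, Finset.mem_range]; exact ⟨by omega, hu'⟩
        · rw [Finset.mem_filter]
          intro h6
          exact h2 u (Finset.mem_singleton_self u) ⟨hu, h6.2⟩
      · intro v hv
        rw [Finset.mem_filter] at hv ⊢
        refine ⟨hv.1, ?_⟩
        have := h1.2 v
        have := hv.2
        omega
    have := Finset.card_lt_card h5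
    omega

theorem W.bound {x q : ℕ} {P : ℕ → (ℕ → ℕ) → Prop} {h n : ℕ} {f : ℕ → ℕ}
    (hq : 2 ≤ q) (hW : W x q P h n f) : h ≤ x := by
  have h1 := Game_card hq hW
  have h2 := Finset.card_filter_le (Finset.range (x + 1)) (fun u => f u = 0)
  rw [Finset.card_range] at h2
  omega

theorem W.leave {x q : ℕ} {P : ℕ → (ℕ → ℕ) → Prop} {h n : ℕ} {f : ℕ → ℕ}
    (hq : 2 ≤ q) (hW : W x q P (h + 1) n f) (u : ℕ) (hu : u ≤ x) :
    ∃ f', Ext n f (n + 1) f' ∧ f' u ≠ 0 ∧ W x q P h (n + 1) f' := by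
  obtain ⟨f', h1, h2, h3⟩ := hW.2 {u} (by simp; omega)
  exact ⟨f', h1, fun h => h2 u (Finset.mem_singleton_self u) ⟨hu, h⟩, h3⟩

theorem W.grow {x q : ℕ} {P : ℕ → (ℕ → ℕ) → Prop} {h m n : ℕ} {f : ℕ → ℕ}
    (hq : 1 ≤ q) (hW : W x q P (h + m) n f) :
    ∃ f', Ext n f (n + m) f' ∧ W x q P h (n + m) f' := by
  induction m generalizing n f with
  | zero => exact ⟨f, Ext.refl _ _, hW⟩
  | succ m ih =>
    obtain ⟨f₁, h1, -, h3⟩ := hW.2 ∅ (by simp; omega)
    obtain ⟨f', h4, h5⟩ := ih h3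
    have e : n + 1 + m = n + (m + 1) := by omega
    rw [e] at h4 h5
    exact ⟨f', h1.trans h4, h5⟩

theorem Game_init {x q h n : ℕ} {f : ℕ → ℕ}
    (hx : ((Finset.range (x + 1)).filter (fun u => f u ≠ 0)).card + h * q ≤ x) :
    W x q (fun _ _ => True) h n f := by
  classical
  induction h generalizing n f with
  | zero =>
    refine ⟨trivial, ?_⟩
    by_contra hcon
    push Not at hcon
    have h1 : (Finset.range (x + 1)).filter (fun u => f u ≠ 0) = Finset.range (x + 1) := by
      rw [Finset.filter_eq_self]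
      intro u hu h2
      rw [Finset.mem_range] at hu
      exact hcon u ⟨by omega, h2⟩
    rw [h1, Finset.card_range] at hx
    omega
  | succ h ih =>
    refine ⟨trivial, fun U hU => ?_⟩
    refine ⟨fun u => if f u = 0 ∧ u ∈ U then n + 1 else f u, ⟨by omega, fun u => ?_⟩, ?_, ?_⟩
    · simp only
      split_ifs with h1
      · right; exact ⟨h1.1, by omega, le_rfl⟩
      · left; rfl
    · intro u hu h1
      have h2 := h1.2
      simp only at h2
      split_ifs at h2 with h3
      exact h3 ⟨h2, hu⟩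
    · apply ih
      have h1 : (Finset.range (x + 1)).filter
          (fun u => (if f u = 0 ∧ u ∈ U then n + 1 else f u) ≠ 0) ⊆
          (Finset.range (x + 1)).filter (fun u => f u ≠ 0) ∪ U := by
        intro u hu
        rw [Finset.mem_filter] at hu
        rw [Finset.mem_union, Finset.mem_filter]
        by_cases hU' : u ∈ U
        · exact Or.inr hU'
        · left
          refine ⟨hu.1, ?_⟩
          have h2 := hu.2
          rw [if_neg (fun h => hU' h.2)] at h2
          exact h2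
      have h2 := (Finset.card_le_card h1).trans (Finset.card_union_le _ _)
      have h3 : (h + 1) * q = h * q + q := by ring
      omega

theorem W.init {x q h n : ℕ} (hx : h * q ≤ x) : W x q (fun _ _ => True) h n (fun _ => 0) := by
  apply Game_init
  simpa using hx

end Pool.Agent.ParisQ
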