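import Pool.Agent.ParisQ.Meet
import Pool.Agent.ParisQ.Clo

/-! The generic sequence of conditions, inside a countable closed family. -/

open Filter

namespace Pool.Agent.ParisQ

/-- every element of a countable nonempty type occurs infinitely often in some sequence -/
private theorem Gen_enum (τ : Type) [Countable τ] [Nonempty τ] :
    ∃ e : ℕ → τ, ∀ t k₀, ∃ k, k₀ ≤ k ∧ e k = t := by
  obtain ⟨e, he⟩ := exists_surjective_nat (τ × ℕ)
  refine ⟨fun k => (e k).1, fun t k₀ => ?_⟩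
  choose g hg using fun n : ℕ => he (t, n)
  have hinj : Function.Injective g := by
    intro a b hab
    have h1 := hg a
    rw [hab, hg b] at h1
    exact (congrArg Prod.snd h1).symm
  have hinf : (Set.range g).Infinite := Set.infinite_range_of_injective hinj
  obtain ⟨k, ⟨n, rfl⟩, hk⟩ := hinf.exists_gt k₀
  exact ⟨g n, hk.le, by show (e (g n)).1 = t; rw [hg n]⟩

private theorem Gen_Le_refl (c : Cond) : Le c c :=
  Eventually.of_forall fun _ => ⟨Ext.refl _ _, fun _ _ h => h⟩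

/-- lift a list of functions to a list of members of the closed family -/
private theorem Gen_lift {F₀ : Set ((Idx → ℕ) × Cond)} (l : List (Idx → ℕ))
    (hl : ∀ a ∈ l, a ∈ Prod.fst '' F₀) :
    ∃ L : List ((Idx → ℕ) × Cond), (∀ ω ∈ L, ω ∈ F₀) ∧ L.map Prod.fst = l := by
  induction l with
  | nil => exact ⟨[], by simp, rfl⟩
  | cons a l ih =>
    obtain ⟨L, hL1, hL2⟩ := ih (fun b hb => hl b (List.mem_cons_of_mem _ hb))
    obtain ⟨ω, hω, rfl⟩ := hl a List.mem_cons_self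
    refine ⟨ω :: L, ?_, ?_⟩
    · intro ω' h'
      rcases List.mem_cons.1 h' with h | h
      · rw [h]; exact hω
      · exact hL1 ω' h
    · rw [List.map_cons, hL2]

theorem gen {x : ℕ → ℕ} (hx : Tendsto x atTop atTop) (c₀ : Cond) (h₀ : Good x c₀)
    {κ μ : Type} [Countable κ] [Countable μ]
    (T : κ → Idx → List ℕ → ℕ → (ℕ → ℕ) → ℕ → Prop)
    (X Y : μ → Idx → ℕ → List ℕ → ℕ → ℕ → (ℕ → ℕ) → Prop) :
    ∃ (F : Set (Idx → ℕ)) (c : ℕ → Cond), c 0 = c₀ ∧ (∀ k, Good x (c k)) ∧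
      (∀ k, Le (c (k + 1)) (c k)) ∧
      (∀ (s : κ) (l : List (Idx → ℕ)), (∀ a ∈ l, a ∈ F) → ∀ k, ∃ y ∈ F, ∀ i : Idx,
        (∃ y' : ℕ, T s i (l.map (fun a => a i)) ((c k).n i) ((c k).f i) y') →
          T s i (l.map (fun a => a i)) ((c k).n i) ((c k).f i) (y i)) ∧
      (∀ (m : μ) (l : List (Idx → ℕ)), (∀ a ∈ l, a ∈ F) → ∀ b ∈ F, ∀ k₀, ∃ k, k₀ ≤ k ∧
        ∃ i₀ ∈ F, ∀ᶠ i in Fil, b i ≤ x i.1 ^ (c k).n i →
          Pers (b i) (X m i ((c k).n i) (l.map (fun a => a i))) →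
          Pers (b i) (Y m i ((c k).n i) (l.map (fun a => a i))) →
          i₀ i ≤ b i ∧
          ((∀ n f, (c (k + 1)).P i n f →
              ¬ X m i ((c k).n i) (l.map (fun a => a i)) (i₀ i) n f ∧
              ¬ Y m i ((c k).n i) (l.map (fun a => a i)) (i₀ i) n f) ∨
            Out (b i) (X m i ((c k).n i) (l.map (fun a => a i)))
              (Y m i ((c k).n i) (l.map (fun a => a i))) (i₀ i)
              ((c (k + 1)).n i) ((c (k + 1)).f i))) ∧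
      (∀ u ∈ F, ∃ k, ∀ᶠ i in Fil, u i ≤ x i.1 → (c k).f i (u i) ≠ 0) ∧
      (∀ s k₀, ∃ k, k₀ ≤ k ∧ ∀ᶠ i in Fil, ack s ((c k).n i) ≤ (c (k + 1)).n i) := by
  classical
  let Ω := (Idx → ℕ) × Cond
  let rT : κ → Ω → List Ω → Ω → Prop := fun s ω l ω' => ∀ i : Idx,
    (∃ y' : ℕ, T s i (l.map (fun a => a.1 i)) (ω.2.n i) (ω.2.f i) y') →
      T s i (l.map (fun a => a.1 i)) (ω.2.n i) (ω.2.f i) (ω'.1 i)
  let rM : μ → Ω → Ω → List Ω → Ω → Prop := fun m ω b l ω' => ∀ᶠ i in Fil, b.1 i ≤ x i.1 ^ ω.2.n i →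
          Pers (b.1 i) (X m i (ω.2.n i) (l.map (fun a => a.1 i))) →
          Pers (b.1 i) (Y m i (ω.2.n i) (l.map (fun a => a.1 i))) →
          ω'.1 i ≤ b.1 i ∧
          ((∀ n f, ω'.2.P i n f →
              ¬ X m i (ω.2.n i) (l.map (fun a => a.1 i)) (ω'.1 i) n f ∧
              ¬ Y m i (ω.2.n i) (l.map (fun a => a.1 i)) (ω'.1 i) n f) ∨
            Out (b.1 i) (X m i (ω.2.n i) (l.map (fun a => a.1 i)))
              (Y m i (ω.2.n i) (l.map (fun a => a.1 i))) (ω'.1 i)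
              (ω'.2.n i) (ω'.2.f i))
  let rL : Ω → Ω → Ω → Prop := fun ω u ω' => ∀ᶠ i in Fil, u.1 i ≤ x i.1 → ω'.2.f i (u.1 i) ≠ 0
  let rG : ℕ → Ω → Ω → Prop := fun s ω ω' => ∀ᶠ i in Fil, ack s (ω.2.n i) ≤ ω'.2.n i
  let st : Ω → Ω → Prop := fun ω ω' => Good x ω'.2 ∧ Le ω'.2 ω.2
  -- tasks for the sequence
  let rel2 : μ ⊕ Option ℕ → List Ω → Ω → Prop := fun k L ω' => match k, L with
    | .inl m, ω :: b :: l => st ω ω' ∧ rM m ω b l ω'
    | .inr none, ω :: u :: _ => st ω ω' ∧ rL ω u ω'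
    | .inr (some s), ω :: _ => st ω ω' ∧ rG s ω ω'
    | _, _ => False
  let rel : κ ⊕ (μ ⊕ Option ℕ) → List Ω → Ω → Prop := fun k L ω' => match k, L with
    | .inl s, ω :: l => rT s ω l ω'
    | .inl _, [] => False
    | .inr k, L => rel2 k L ω'
  obtain ⟨F₀, hF1, hF2, hF3⟩ := exists_closed rel ((fun _ => 0, c₀) : Ω)
  have : Countable F₀ := hF1.to_subtype
  obtain ⟨e, he⟩ := Gen_enum ((μ ⊕ Option ℕ) × List F₀)
  let step : (μ ⊕ Option ℕ) × List F₀ → {ω : Ω // ω ∈ F₀ ∧ Good x ω.2} → {ω : Ω // ω ∈ F₀ ∧ Good x ω.2} :=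
    fun t ω => if h : ∃ ω' : {ω : Ω // ω ∈ F₀ ∧ Good x ω.2}, Le ω'.1.2 ω.1.2 ∧
      rel2 t.1 (ω.1 :: t.2.map (fun a => a.1)) ω'.1 then Classical.choose h else ω
  have hstep1 : ∀ t ω, Le (step t ω).1.2 ω.1.2 := by
    intro t ω
    simp only [step]
    split_ifs with h
    · exact (Classical.choose_spec h).1
    · exact Gen_Le_refl _
  have hstep2 : ∀ t ω, (∃ ω' : {ω : Ω // ω ∈ F₀ ∧ Good x ω.2}, Le ω'.1.2 ω.1.2 ∧
      rel2 t.1 (ω.1 :: t.2.map (fun a => a.1)) ω'.1) → rel2 t.1 (ω.1 :: t.2.map (fun a => a.1)) (step t ω).1 := by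
    intro t ω h
    simp only [step]
    rw [dif_pos h]
    exact (Classical.choose_spec h).2
  let sq : ℕ → {ω : Ω // ω ∈ F₀ ∧ Good x ω.2} := fun k =>
    Nat.rec ⟨(fun _ => 0, c₀), hF2, h₀⟩ (fun k ω => step (e k) ω) k
  have hsq : ∀ k, sq (k + 1) = step (e k) (sq k) := fun k => rfl
  -- closure for the tasks
  have hcl : ∀ (kd : μ ⊕ Option ℕ) (L : List F₀) (ω : {ω : Ω // ω ∈ F₀ ∧ Good x ω.2}),
      (∃ ω', rel2 kd (ω.1 :: L.map (fun a => a.1)) ω') →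
      (∀ ω', rel2 kd (ω.1 :: L.map (fun a => a.1)) ω' → st ω.1 ω') →
      rel2 kd (ω.1 :: L.map (fun a => a.1)) (step (kd, L) ω).1 := by
    intro kd L ω h1 h2
    apply hstep2 (kd, L) ω
    obtain ⟨ω', hω', hr⟩ := hF3 (Sum.inr kd) (ω.1 :: L.map (fun a => a.1)) (by
      intro a ha
      rcases List.mem_cons.1 ha with h | h
      · rw [h]; exact ω.2.1
      · rw [List.mem_map] at h
        obtain ⟨b, _, rfl⟩ := h
        exact b.2) h1
    have h3 := h2 ω' hr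
    exact ⟨⟨ω', hω', h3.1⟩, h3.2, hr⟩
  refine ⟨Prod.fst '' F₀, fun k => (sq k).1.2, rfl, fun k => (sq k).2.2, ?_, ?_, ?_, ?_, ?_⟩
  · intro k
    exact hstep1 (e k) (sq k)
  · intro s l hl k
    obtain ⟨L, hL1, hL2⟩ := Gen_lift l hl
    have hmap : ∀ i : Idx, L.map (fun a => a.1 i) = l.map (fun a => a i) := by
      intro i; rw [← hL2, List.map_map]; rfl
    have hex : ∃ ω', rel (Sum.inl s) ((sq k).1 :: L) ω' := by
      refine ⟨(fun i => if h : ∃ y' : ℕ, T s i (L.map (fun a => a.1 i)) ((sq k).1.2.n i) ((sq k).1.2.f i) y' then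
        Classical.choose h else 0, c₀), ?_⟩
      intro i hi
      simp only []
      rw [dif_pos hi]
      exact Classical.choose_spec hi
    obtain ⟨ω', hω', hr⟩ := hF3 (Sum.inl s) ((sq k).1 :: L) (by
      intro a ha
      rcases List.mem_cons.1 ha with h | h
      · rw [h]; exact (sq k).2.1
      · exact hL1 a h) hex
    refine ⟨ω'.1, ⟨ω', hω', rfl⟩, fun i => ?_⟩
    have := hr i
    rw [hmap i] at this
    exact this
  · intro m l hl b hb k₀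
    obtain ⟨L, hL1, hL2⟩ := Gen_lift l hl
    obtain ⟨β, hβ, rfl⟩ := hb
    have hmap : ∀ i : Idx, L.map (fun a => a.1 i) = l.map (fun a => a i) := by
      intro i; rw [← hL2, List.map_map]; rfl
    let L' : List F₀ := L.attach.map (fun a => ⟨a.1, hL1 a.1 a.2⟩)
    have hL' : L'.map (fun a => a.1) = L := by
      simp only [L', List.map_map]
      exact List.attach_map_subtype_val L
    obtain ⟨k, hk, hek⟩ := he (Sum.inl m, (⟨β, hβ⟩ : F₀) :: L') k₀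
    have hmapβ : ((⟨β, hβ⟩ : F₀) :: L').map (fun a => a.1) = β :: L := by
      rw [List.map_cons, hL']
    have h1 : ∃ ω', rel2 (Sum.inl m) ((sq k).1 :: ((⟨β, hβ⟩ : F₀) :: L').map (fun a => a.1)) ω' := by
      rw [hmapβ]
      obtain ⟨c', i₀, a1, a2, a3⟩ := meetC hx (sq k).2.2 β.1
        (fun i => X m i ((sq k).1.2.n i) (L.map (fun a => a.1 i)))
        (fun i => Y m i ((sq k).1.2.n i) (L.map (fun a => a.1 i)))
      exact ⟨(i₀, c'), ⟨a1, a2⟩, a3⟩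
    have h2 : ∀ ω', rel2 (Sum.inl m) ((sq k).1 :: ((⟨β, hβ⟩ : F₀) :: L').map (fun a => a.1)) ω' →
        st (sq k).1 ω' := by
      rw [hmapβ]
      intro ω' h
      exact h.1
    have h3 := hcl (Sum.inl m) ((⟨β, hβ⟩ : F₀) :: L') (sq k) h1 h2
    rw [← hek, ← hsq k, hmapβ] at h3
    refine ⟨k, hk, (sq (k + 1)).1.1, ⟨(sq (k + 1)).1, (sq (k + 1)).2.1, rfl⟩, ?_⟩
    have h4 : rM m (sq k).1 β L (sq (k + 1)).1 := h3.2
    refine h4.mono fun i hi => ?_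
    rw [hmap i] at hi
    exact hi
  · rintro u ⟨υ, hυ, rfl⟩
    obtain ⟨k, hk, hek⟩ := he (Sum.inr none, [(⟨υ, hυ⟩ : F₀)]) 0
    have h1 : ∃ ω', rel2 (Sum.inr none) ((sq k).1 :: [(⟨υ, hυ⟩ : F₀)].map (fun a => a.1)) ω' := by
      obtain ⟨c', a1, a2, a3⟩ := leaveC hx (sq k).2.2 υ.1
      exact ⟨(fun _ => 0, c'), ⟨a1, a2⟩, a3⟩
    have h2 : ∀ ω', rel2 (Sum.inr none) ((sq k).1 :: [(⟨υ, hυ⟩ : F₀)].map (fun a => a.1)) ω' →
        st (sq k).1 ω' := fun ω' h => h.1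
    have h3 := hcl (Sum.inr none) [(⟨υ, hυ⟩ : F₀)] (sq k) h1 h2
    rw [← hek, ← hsq k] at h3
    exact ⟨k + 1, h3.2⟩
  · intro s k₀
    obtain ⟨k, hk, hek⟩ := he (Sum.inr (some s), []) k₀
    have h1 : ∃ ω', rel2 (Sum.inr (some s)) ((sq k).1 :: ([] : List F₀).map (fun a => a.1)) ω' := by
      obtain ⟨c', a1, a2, a3⟩ := growC hx (sq k).2.2 s
      exact ⟨(fun _ => 0, c'), ⟨a1, a2⟩, a3⟩
    have h2 : ∀ ω', rel2 (Sum.inr (some s)) ((sq k).1 :: ([] : List F₀).map (fun a => a.1)) ω' →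
        st (sq k).1 ω' := fun ω' h => h.1
    have h3 := hcl (Sum.inr (some s)) [] (sq k) h1 h2
    rw [← hek, ← hsq k] at h3
    exact ⟨k, hk, h3.2⟩

end Pool.Agent.ParisQ
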