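import Pool.Agent.ParisQ.MeetPt
import Pool.Agent.ParisQ.Cnd

/-! The main step of the construction, for conditions. -/

open Filter

namespace Pool.Agent.ParisQ

theorem Meet_tendsto {x : ℕ → ℕ} (hx : Tendsto x atTop atTop) :
    Tendsto (fun i : Idx => x i.1) Fil atTop :=
  hx.comp tendsto_comap

theorem meetC {x : ℕ → ℕ} (hx : Tendsto x atTop atTop) {c : Cond} (hc : Good x c)
    (b : Idx → ℕ) (X Y : Idx → ℕ → ℕ → (ℕ → ℕ) → Prop) :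
    ∃ (c' : Cond) (i₀ : Idx → ℕ), Good x c' ∧ Le c' c ∧ ∀ᶠ i in Fil, b i ≤ x i.1 ^ c.n i →
      Pers (b i) (X i) → Pers (b i) (Y i) → i₀ i ≤ b i ∧
      ((∀ n f, c'.P i n f → ¬ X i (i₀ i) n f ∧ ¬ Y i (i₀ i) n f) ∨
        Out (b i) (X i) (Y i) (i₀ i) (c'.n i) (c'.f i)) := by
  classical
  obtain ⟨⟨e, he⟩, hcW⟩ := hc
  choose t ht using fun s => meet_pt s e
  set t' : ℕ → ℕ := fun s => s + ∑ r ∈ Finset.range (s + 1), t r with ht'
  have ht'mono : ∀ s, t' s ≤ t' (s + 1) := by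
    intro s
    simp only [ht']
    rw [Finset.sum_range_succ (fun r => t r) (s + 1)]
    omega
  have ht't : ∀ s, t s ≤ t' s := by
    intro s
    simp only [ht']
    rw [Finset.sum_range_succ]
    omega
  have ht's : ∀ s, s ≤ t' s := by
    intro s
    simp only [ht']
    omega
  set Φ : ℕ → Idx → Prop := fun s i => 9 ≤ c.q i ∧ x i.1 ≤ c.q i ^ e ∧
    W (x i.1) (c.q i) (c.P i) (ack (t' s) (c.n i)) (c.n i) (c.f i) with hΦ
  have hq9 : ∀ᶠ i in Fil, 9 ≤ c.q i := by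
    have h1 : ∀ᶠ i in Fil, 8 ^ e + 1 ≤ x i.1 := (Meet_tendsto hx).eventually_ge_atTop _
    filter_upwards [he, h1] with i hi1 hi2
    by_contra h
    have h2 : c.q i ≤ 8 := by omega
    have h3 : c.q i ^ e ≤ 8 ^ e := Nat.pow_le_pow_left h2 e
    omega
  obtain ⟨σ, hσ1, hσ2⟩ := diag (Φ := Φ)
    (by
      intro s i hi
      obtain ⟨h1, h2, h3⟩ := hi
      exact ⟨h1, h2, h3.mono (by omega) (ack_mono_left _ (ht'mono s)) le_rfl (fun _ _ h => h)⟩)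
    (by
      intro s
      filter_upwards [he, hq9, hcW (t' s)] with i hi1 hi2 hi3
      exact ⟨hi2, hi1, hi3⟩)
  have key : ∀ i : Idx, ∃ (n' : ℕ) (f' : ℕ → ℕ) (P' : ℕ → (ℕ → ℕ) → Prop) (i₀ : ℕ),
      Φ (σ i) i → (Ext (c.n i) (c.f i) n' f' ∧ (∀ n f, P' n f → c.P i n f) ∧
        W (x i.1) (Nat.sqrt (c.q i) - 1) P' (ack (σ i) n') n' f' ∧
        (b i ≤ x i.1 ^ c.n i → Pers (b i) (X i) → Pers (b i) (Y i) → i₀ ≤ b i ∧
          ((∀ n f, P' n f → ¬ X i i₀ n f ∧ ¬ Y i i₀ n f) ∨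
            Out (b i) (X i) (Y i) i₀ n' f'))) := by
    intro i
    by_cases hP : Φ (σ i) i
    · obtain ⟨h1, h2, h3⟩ := hP
      obtain ⟨g1, g2, g3⟩ := MeetPt_sqrt h1
      have gq : Nat.sqrt (c.q i) - 1 ≤ c.q i := by nlinarith
      by_cases hyp : b i ≤ x i.1 ^ c.n i ∧ Pers (b i) (X i) ∧ Pers (b i) (Y i)
      · obtain ⟨n', f', P', i₀, k1, k2, k3, k4, k5⟩ :=
          ht (σ i) (x i.1) (c.q i) (c.n i) (c.f i) (c.P i) (X i) (Y i) (b i) h1 h2 hyp.1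
            hyp.2.1 hyp.2.2
            (h3.mono (by omega) (ack_mono_left _ (ht't (σ i))) le_rfl (fun _ _ h => h))
        exact ⟨n', f', P', i₀, fun _ => ⟨k2, k3, k4, fun _ _ _ => ⟨k1, k5⟩⟩⟩
      · refine ⟨c.n i, c.f i, c.P i, 0, fun _ => ⟨Ext.refl _ _, fun _ _ h => h,
          h3.mono (by omega) (ack_mono_left _ (ht's (σ i))) gq (fun _ _ h => h),
          fun a1 a2 a3 => absurd ⟨a1, a2, a3⟩ hyp⟩⟩
    · exact ⟨0, fun _ => 0, fun _ _ => True, 0, fun h => absurd h hP⟩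
  choose n' f' P' i₀ hkey using key
  refine ⟨⟨n', f', fun i => Nat.sqrt (c.q i) - 1, P'⟩, i₀, ⟨⟨4 * e, ?_⟩, ?_⟩, ?_, ?_⟩
  · filter_upwards [hσ2] with i hi
    obtain ⟨h1, h2, h3⟩ := hi
    obtain ⟨g1, g2, g3⟩ := MeetPt_sqrt h1
    show x i.1 ≤ (Nat.sqrt (c.q i) - 1) ^ (4 * e)
    rw [pow_mul]
    exact h2.trans (Nat.pow_le_pow_left g3 e)
  · intro s
    filter_upwards [hσ1 s, hσ2] with i hi1 hi2
    obtain ⟨g1, g2, g3⟩ := MeetPt_sqrt hi2.1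
    exact ((hkey i hi2).2.2.1).mono (by omega) (ack_mono_left _ hi1) le_rfl (fun _ _ h => h)
  · show ∀ᶠ i in Fil, Ext (c.n i) (c.f i) (n' i) (f' i) ∧ ∀ n f, P' i n f → c.P i n f
    filter_upwards [hσ2] with i hi
    exact ⟨(hkey i hi).1, (hkey i hi).2.1⟩
  · filter_upwards [hσ2] with i hi
    exact (hkey i hi).2.2.2

end Pool.Agent.ParisQ
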