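import Pool.Agent.ParisQ.Rounds
import Pool.Agent.ParisQ.AckA

/-! The main step of the construction, at one index. -/

namespace Pool.Agent.ParisQ

theorem MeetPt_sqrt {q : ℕ} (hq : 9 ≤ q) :
    2 ≤ Nat.sqrt q - 1 ∧ (Nat.sqrt q - 1) * ((Nat.sqrt q - 1) + 1) ≤ q ∧
      q ≤ (Nat.sqrt q - 1) ^ 4 := by
  have h3 : 3 ≤ Nat.sqrt q := by
    rw [Nat.le_sqrt]
    omega
  have h1 : Nat.sqrt q * Nat.sqrt q ≤ q := Nat.sqrt_le q
  have h2 : q < (Nat.sqrt q + 1) * (Nat.sqrt q + 1) := Nat.lt_succ_sqrt q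
  obtain ⟨r, hr⟩ : ∃ r, Nat.sqrt q = r + 1 := ⟨Nat.sqrt q - 1, by omega⟩
  rw [hr] at h1 h2 h3 ⊢
  have hr2 : 2 ≤ r := by omega
  refine ⟨by omega, ?_, ?_⟩
  · simp only [Nat.add_sub_cancel]
    nlinarith
  · simp only [Nat.add_sub_cancel]
    have h4 : r + 2 ≤ r * r := by nlinarith
    have h5 : (r + 2) * (r + 2) ≤ (r * r) * (r * r) := Nat.mul_le_mul h4 h4
    calc q ≤ (r + 2) * (r + 2) := by
          have : r + 1 + 1 = r + 2 := by omega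
          rw [this] at h2
          omega
      _ ≤ (r * r) * (r * r) := h5
      _ = r ^ 4 := by ring

/-- The main step of the construction at one index. -/
theorem meet_pt (s e : ℕ) : ∃ t, ∀ (x q n : ℕ) (f : ℕ → ℕ) (P : ℕ → (ℕ → ℕ) → Prop)
    (X Y : ℕ → ℕ → (ℕ → ℕ) → Prop) (b : ℕ), 9 ≤ q → x ≤ q ^ e → b ≤ x ^ n →
    Pers b X → Pers b Y → W x q P (ack t n) n f →
    ∃ (n' : ℕ) (f' : ℕ → ℕ) (P' : ℕ → (ℕ → ℕ) → Prop) (i₀ : ℕ), i₀ ≤ b ∧ Ext n f n' f' ∧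
      (∀ n f, P' n f → P n f) ∧ W x (Nat.sqrt q - 1) P' (ack s n') n' f' ∧
      ((∀ n f, P' n f → ¬ X i₀ n f ∧ ¬ Y i₀ n f) ∨ Out b X Y i₀ n' f') := by
  obtain ⟨t, ht⟩ := ack_absorb s e
  refine ⟨t, ?_⟩
  intro x q n f P X Y b hq hx hb hX hY hW
  obtain ⟨h1, h2, h3⟩ := MeetPt_sqrt hq
  set q' := Nat.sqrt q - 1 with hq'
  have hq'q : q' ≤ q := by nlinarith
  by_cases hcase : ∃ (n' : ℕ) (f' : ℕ → ℕ) (i₀ : ℕ), i₀ ≤ b ∧ Ext n f n' f' ∧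
      W x q' (fun n f => P n f ∧ ¬ X i₀ n f ∧ ¬ Y i₀ n f) (ack s n') n' f'
  · obtain ⟨n', f', i₀, hi, hext, hw⟩ := hcase
    exact ⟨n', f', fun n f => P n f ∧ ¬ X i₀ n f ∧ ¬ Y i₀ n f, i₀, hi, hext,
      fun n f h => h.1, hw, Or.inl (fun n f h => h.2)⟩
  · have hB : ∀ n₁ f₁, Ext n f n₁ f₁ → ∀ i ≤ b,
        ¬ W x q' (fun n f => P n f ∧ ¬ X i n f ∧ ¬ Y i n f) (ack s n₁) n₁ f₁ :=
      fun n₁ f₁ hext i hi hw => hcase ⟨n₁, f₁, i, hi, hext, hw⟩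
    have hR : b ≤ q' ^ (4 * e * n) := by
      calc b ≤ x ^ n := hb
        _ ≤ (q ^ e) ^ n := Nat.pow_le_pow_left hx n
        _ ≤ (((q' ^ 4)) ^ e) ^ n := Nat.pow_le_pow_left (Nat.pow_le_pow_left h3 e) n
        _ = q' ^ (4 * e * n) := by rw [← pow_mul, ← pow_mul, mul_assoc 4 e n]
    set N := (fun k => k + ack s k)^[4 * e * n + 1] n with hN
    have hW' : W x q P (ack s N + (N - n)) n f :=
      hW.mono (by omega) (ht n N le_rfl) le_rfl (fun _ _ h => h)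
    obtain ⟨n', f', i, hi, hn', hext, hw, hout⟩ :=
      rounds (m := fun k => ack s k) (q' := q') (g := q') (by omega) (by omega) h2 hX hY hB hR hW'
    refine ⟨n', f', P, i, hi, hext, fun _ _ h => h, ?_, Or.inr hout⟩
    exact hw.mono (by omega) (ack_mono_right s hn') hq'q (fun _ _ h => h)

end Pool.Agent.ParisQ
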