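import Pool.Agent.ParisQ.Setup

/-! The model. -/

open Filter

namespace Pool.Agent.ParisQ

/-- The ultrafilter. -/
noncomputable abbrev UU : Ultrafilter ℕ := hyperfilter ℕ

/-- Germs. -/
abbrev GG : Type := Germ (UU : Filter ℕ) ℕ

theorem UU_of_atTop {p : ℕ → Prop} (h : ∀ᶠ j in atTop, p j) : ∀ᶠ j in (UU : Filter ℕ), p j := by
  have h1 : (UU : Filter ℕ) ≤ atTop := by
    rw [← Nat.cofinite_eq_atTop]
    exact hyperfilter_le_cofinite
  exact h.filter_mono h1

namespace Stp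

variable {g : ℕ → ℕ} {P : ℕ → ℕ → ℕ → ℕ → Prop} (S : Stp g P)

/-- The branch of indices. -/
def br (j : ℕ) : Idx := (j, S.pa j)

theorem of_Fil {p : Idx → Prop} (h : ∀ᶠ i in Fil, p i) : ∀ᶠ j in (UU : Filter ℕ), p (S.br j) := by
  rw [eventually_Fil] at h
  obtain ⟨J, hJ⟩ := h
  refine UU_of_atTop ?_
  filter_upwards [eventually_ge_atTop J] with j hj
  exact hJ j hj _

/-- Bounded by the `k`-th level. -/
def Bd (k : ℕ) (a : ℕ → ℕ) : Prop := ∀ᶠ j in (UU : Filter ℕ), a j ≤ S.x j ^ (S.c k).n (S.br j)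

theorem le_le {k k' : ℕ} (h : k ≤ k') : Le (S.c k') (S.c k) := by
  induction k', h using Nat.le_induction with
  | base => exact Eventually.of_forall fun i => ⟨Ext.refl _ _, fun _ _ h => h⟩
  | succ k' _ ih =>
    have h2 := S.le k'
    unfold Le at *
    filter_upwards [ih, h2] with i h3 h4
    exact ⟨h3.1.trans h4.1, fun n f h => h3.2 n f (h4.2 n f h)⟩

theorem n_mono {k k' : ℕ} (h : k ≤ k') :
    ∀ᶠ j in (UU : Filter ℕ), (S.c k).n (S.br j) ≤ (S.c k').n (S.br j) := by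
  have h1 := S.of_Fil (S.le_le h)
  filter_upwards [h1] with j hj
  exact hj.1.1

theorem y_lt (k : ℕ) : ∀ᶠ j in (UU : Filter ℕ), S.y j < (S.c k).n (S.br j) := by
  filter_upwards [S.n_mono (Nat.zero_le k)] with j hj
  rw [S.init_n] at hj
  exact hj

theorem one_le_x (j : ℕ) : 1 ≤ S.x j := le_trans (by norm_num) (S.hx2 j)

theorem Bd.mono {S : Stp g P} {k k' : ℕ} (h : k ≤ k') {a : ℕ → ℕ} (ha : S.Bd k a) :
    S.Bd k' a := by
  unfold Bd at *
  filter_upwards [ha, S.n_mono h] with j h1 h2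
  exact h1.trans (Nat.pow_le_pow_right (S.one_le_x j) h2)

theorem Bd.of_le {S : Stp g P} {k : ℕ} {a b : ℕ → ℕ} (hb : S.Bd k b)
    (h : ∀ᶠ j in (UU : Filter ℕ), a j ≤ b j) : S.Bd k a := by
  unfold Bd at *
  filter_upwards [hb, h] with j h1 h2
  exact h2.trans h1

theorem n_le_x (k : ℕ) : ∀ᶠ j in (UU : Filter ℕ), (S.c k).n (S.br j) ≤ S.x j := by
  filter_upwards [S.of_Fil ((S.good k).level_le S.hx)] with j hj
  exact hj

/-- Multiples of a level are below a later level. -/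
theorem mul_level (D k₀ k₁ : ℕ) : ∃ k, k₁ ≤ k ∧
    ∀ᶠ j in (UU : Filter ℕ), D * (S.c k₀).n (S.br j) ≤ (S.c k).n (S.br j) := by
  obtain ⟨k, hk, h⟩ := S.grow (D + 3) (max k₀ k₁)
  refine ⟨k + 1, by omega, ?_⟩
  have h2 := S.n_mono (k := k₀) (k' := k) (by omega)
  filter_upwards [S.of_Fil h, h2] with j h3 h4
  have h5 := ack_add_one_sq_lt_ack_add_three D ((S.c k).n (S.br j))
  have h6 : D + (S.c k).n (S.br j) < ack D ((S.c k).n (S.br j)) := add_lt_ack _ _
  have h7 : D * (S.c k).n (S.br j) ≤ ack (D + 3) ((S.c k).n (S.br j)) := by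
    nlinarith
  calc D * (S.c k₀).n (S.br j) ≤ D * (S.c k).n (S.br j) := Nat.mul_le_mul_left _ h4
    _ ≤ _ := h7
    _ ≤ _ := h3

/-- Products of two levels are below a later level. -/
theorem sq_level (k₀ : ℕ) : ∃ k, k₀ ≤ k ∧
    ∀ᶠ j in (UU : Filter ℕ), (S.c k₀).n (S.br j) * (S.c k₀).n (S.br j) ≤ (S.c k).n (S.br j) := by
  obtain ⟨k, hk, h⟩ := S.grow 3 k₀
  refine ⟨k + 1, by omega, ?_⟩
  have h2 := S.n_mono (k := k₀) (k' := k) (by omega)
  filter_upwards [S.of_Fil h, h2] with j h3 h4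
  have h5 := ack_add_one_sq_lt_ack_add_three 0 ((S.c k).n (S.br j))
  have h6 : 0 + (S.c k).n (S.br j) < ack 0 ((S.c k).n (S.br j)) := add_lt_ack _ _
  have h7 : (S.c k).n (S.br j) * (S.c k).n (S.br j) ≤ ack 3 ((S.c k).n (S.br j)) := by
    have : (0 + 3 : ℕ) = 3 := rfl
    rw [this] at h5
    nlinarith
  exact (Nat.mul_le_mul h4 h4).trans (h7.trans h3)

/-- Closure in one line. -/
theorem close (s : Kd) (l : List (Idx → ℕ)) (hl : ∀ a ∈ l, a ∈ S.F) (k : ℕ) : ∃ z ∈ S.F, ∀ i : Idx,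
    (∃ z' : ℕ, TT g P S.x S.y s i (l.map (fun a => a i)) ((S.c k).n i) ((S.c k).f i) z') →
      TT g P S.x S.y s i (l.map (fun a => a i)) ((S.c k).n i) ((S.c k).f i) (z i) :=
  S.clo s l hl k

/-- The underlying set of the model. -/
def carrier : Set GG :=
  {z | ∃ a ∈ S.F, z = ((fun j => a (S.br j) : ℕ → ℕ) : GG) ∧ ∃ k, S.Bd k (fun j => a (S.br j))}

theorem add_mem' {z w : GG} (hz : z ∈ S.carrier) (hw : w ∈ S.carrier) : z + w ∈ S.carrier := by
  obtain ⟨a, ha, rfl, k, hk⟩ := hz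
  obtain ⟨b, hb, rfl, l, hl⟩ := hw
  obtain ⟨d, hd, hd2⟩ := S.close .add [a, b] (by simp [ha, hb]) 0
  have hd3 : ∀ i, d i = a i + b i := by
    intro i
    have := hd2 i ⟨_, rfl⟩
    simpa [TT] using this
  refine ⟨d, hd, ?_, ?_⟩
  · rw [← Germ.coe_add]
    refine congrArg _ (funext fun j => ?_)
    simp [hd3]
  · obtain ⟨k', hk', h'⟩ := S.mul_level 2 (max k l) 0
    refine ⟨k', ?_⟩
    have h1 := hk.mono (S := S) (le_max_left k l)
    have h2 := hl.mono (S := S) (le_max_right k l)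
    unfold Bd at *
    filter_upwards [h1, h2, h', S.y_lt (max k l)] with j h3 h4 h5 h6
    rw [hd3]
    set N := (S.c (max k l)).n (S.br j)
    have h7 : 2 ≤ S.x j ^ N := by
      calc 2 ≤ S.x j := S.hx2 j
        _ = S.x j ^ 1 := (pow_one _).symm
        _ ≤ S.x j ^ N := Nat.pow_le_pow_right (S.one_le_x j) (by omega)
    calc a (S.br j) + b (S.br j) ≤ S.x j ^ N + S.x j ^ N := Nat.add_le_add h3 h4
      _ = 2 * S.x j ^ N := by ring
      _ ≤ S.x j ^ N * S.x j ^ N := Nat.mul_le_mul_right _ h7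
      _ = S.x j ^ (2 * N) := by rw [← pow_add, two_mul]
      _ ≤ _ := Nat.pow_le_pow_right (S.one_le_x j) h5

theorem mul_mem' {z w : GG} (hz : z ∈ S.carrier) (hw : w ∈ S.carrier) : z * w ∈ S.carrier := by
  obtain ⟨a, ha, rfl, k, hk⟩ := hz
  obtain ⟨b, hb, rfl, l, hl⟩ := hw
  obtain ⟨d, hd, hd2⟩ := S.close .mul [a, b] (by simp [ha, hb]) 0
  have hd3 : ∀ i, d i = a i * b i := by
    intro i
    have := hd2 i ⟨_, rfl⟩
    simpa [TT] using this
  refine ⟨d, hd, ?_, ?_⟩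
  · rw [← Germ.coe_mul]
    refine congrArg _ (funext fun j => ?_)
    simp [hd3]
  · obtain ⟨k', hk', h'⟩ := S.mul_level 2 (max k l) 0
    refine ⟨k', ?_⟩
    have h1 := hk.mono (S := S) (le_max_left k l)
    have h2 := hl.mono (S := S) (le_max_right k l)
    unfold Bd at *
    filter_upwards [h1, h2, h'] with j h3 h4 h5
    rw [hd3]
    set N := (S.c (max k l)).n (S.br j)
    calc a (S.br j) * b (S.br j) ≤ S.x j ^ N * S.x j ^ N := Nat.mul_le_mul h3 h4
      _ = S.x j ^ (2 * N) := by rw [← pow_add, two_mul]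
      _ ≤ _ := Nat.pow_le_pow_right (S.one_le_x j) h5

theorem zero_mem' : (0 : GG) ∈ S.carrier := by
  obtain ⟨d, hd, hd2⟩ := S.close .zero [] (by simp) 0
  have hd3 : ∀ i, d i = 0 := by
    intro i
    have := hd2 i ⟨_, rfl⟩
    simpa [TT] using this
  refine ⟨d, hd, ?_, 0, ?_⟩
  · refine congrArg _ (funext fun j => ?_)
    simp [hd3]
  · exact Eventually.of_forall fun j => by simp [hd3]

theorem one_mem' : (1 : GG) ∈ S.carrier := by
  obtain ⟨d, hd, hd2⟩ := S.close .one [] (by simp) 0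
  have hd3 : ∀ i, d i = 1 := by
    intro i
    have := hd2 i ⟨_, rfl⟩
    simpa [TT] using this
  refine ⟨d, hd, ?_, 0, ?_⟩
  · refine congrArg _ (funext fun j => ?_)
    simp [hd3]
  · exact Eventually.of_forall fun j => by
      simp only [hd3]
      exact Nat.one_le_pow _ _ (S.one_le_x j)

/-- The model. -/
def MM : Subsemiring GG where
  carrier := S.carrier
  add_mem' := S.add_mem'
  mul_mem' := S.mul_mem'
  zero_mem' := S.zero_mem'
  one_mem' := S.one_mem'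

/-- A representative in `F` of an element of the model. -/
noncomputable def aF (m : S.MM) : Idx → ℕ := (m.2 : (m : GG) ∈ S.carrier).choose

theorem aF_mem (m : S.MM) : S.aF m ∈ S.F := (m.2 : (m : GG) ∈ S.carrier).choose_spec.1

/-- The representative along the branch. -/
noncomputable def rp (m : S.MM) (j : ℕ) : ℕ := S.aF m (S.br j)

theorem coe_rp (m : S.MM) : (m : GG) = ((S.rp m : ℕ → ℕ) : GG) :=
  (m.2 : (m : GG) ∈ S.carrier).choose_spec.2.1

theorem bd_rp (m : S.MM) : ∃ k, S.Bd k (S.rp m) :=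
  (m.2 : (m : GG) ∈ S.carrier).choose_spec.2.2

/-- Build an element. -/
theorem mk_elt {a : Idx → ℕ} (ha : a ∈ S.F) {k : ℕ} (hk : S.Bd k (fun j => a (S.br j))) :
    ∃ m : S.MM, ∀ᶠ j in (UU : Filter ℕ), S.rp m j = a (S.br j) := by
  refine ⟨⟨((fun j => a (S.br j) : ℕ → ℕ) : GG), a, ha, rfl, k, hk⟩, ?_⟩
  have := S.coe_rp ⟨((fun j => a (S.br j) : ℕ → ℕ) : GG), a, ha, rfl, k, hk⟩
  exact (Germ.coe_eq.mp this.symm)

theorem le_iff (m m' : S.MM) : m ≤ m' ↔ ∀ᶠ j in (UU : Filter ℕ), S.rp m j ≤ S.rp m' j := by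
  rw [← Subtype.coe_le_coe, S.coe_rp m, S.coe_rp m', Germ.coe_le]
  rfl

theorem lt_iff (m m' : S.MM) : m < m' ↔ ∀ᶠ j in (UU : Filter ℕ), S.rp m j < S.rp m' j := by
  rw [← Subtype.coe_lt_coe, S.coe_rp m, S.coe_rp m', Germ.coe_lt]

theorem eq_iff (m m' : S.MM) : m = m' ↔ ∀ᶠ j in (UU : Filter ℕ), S.rp m j = S.rp m' j := by
  rw [← Subtype.coe_inj, S.coe_rp m, S.coe_rp m', Germ.coe_eq]
  rfl

theorem rp_add (m m' : S.MM) : ∀ᶠ j in (UU : Filter ℕ), S.rp (m + m') j = S.rp m j + S.rp m' j := by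
  have h : ((m + m' : S.MM) : GG) = (m : GG) + (m' : GG) := rfl
  rw [S.coe_rp, S.coe_rp m, S.coe_rp m', ← Germ.coe_add, Germ.coe_eq] at h
  exact h

theorem rp_mul (m m' : S.MM) : ∀ᶠ j in (UU : Filter ℕ), S.rp (m * m') j = S.rp m j * S.rp m' j := by
  have h : ((m * m' : S.MM) : GG) = (m : GG) * (m' : GG) := rfl
  rw [S.coe_rp, S.coe_rp m, S.coe_rp m', ← Germ.coe_mul, Germ.coe_eq] at h
  exact h

theorem rp_zero : ∀ᶠ j in (UU : Filter ℕ), S.rp 0 j = 0 := by
  have h : ((0 : S.MM) : GG) = ((fun _ => 0 : ℕ → ℕ) : GG) := rfl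
  rw [S.coe_rp, Germ.coe_eq] at h
  exact h

theorem rp_one : ∀ᶠ j in (UU : Filter ℕ), S.rp 1 j = 1 := by
  have h : ((1 : S.MM) : GG) = ((fun _ => 1 : ℕ → ℕ) : GG) := rfl
  rw [S.coe_rp, Germ.coe_eq] at h
  exact h

instance : CanonicallyOrderedAdd S.MM where
  exists_add_of_le := by
    intro a b hab
    rw [S.le_iff] at hab
    obtain ⟨d, hd, hd2⟩ := S.close .sub [S.aF b, S.aF a] (by simp [S.aF_mem]) 0
    have hd3 : ∀ i, d i = S.aF b i - S.aF a i := by
      intro i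
      have := hd2 i ⟨_, rfl⟩
      simpa [TT] using this
    obtain ⟨k, hk⟩ := S.bd_rp b
    have hbd : S.Bd k (fun j => d (S.br j)) := by
      refine hk.of_le (Eventually.of_forall fun j => ?_)
      rw [hd3]
      exact Nat.sub_le _ _
    obtain ⟨m, hm⟩ := S.mk_elt hd hbd
    refine ⟨m, ?_⟩
    rw [S.eq_iff]
    filter_upwards [hab, hm, S.rp_add a m] with j h1 h2 h3
    rw [h3, h2, hd3]
    unfold rp at *
    omega
  le_add_self := by
    intro a b
    rw [S.le_iff]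
    filter_upwards [S.rp_add b a] with j h3
    omega
  le_self_add := by
    intro a b
    rw [S.le_iff]
    filter_upwards [S.rp_add a b] with j h3
    omega

theorem one_le_of_pos (m : S.MM) (hm : 0 < m) : 1 ≤ m := by
  rw [S.lt_iff] at hm
  rw [S.le_iff]
  filter_upwards [hm, S.rp_zero, S.rp_one] with j h1 h2 h3
  omega

/-- The interpretation of the predicate symbols in the model. -/
def II : Interp S.MM := fun s a b d =>
  ∀ᶠ j in (UU : Filter ℕ), stdI g S.A P s (S.rp a j) (S.rp b j) (S.rp d j)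

end Stp

end Pool.Agent.ParisQ
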