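import Mathlib.Data.List.GetD
import Pool.Agent.ParisQ.Defs

/-! Normal forms of Sigma_1 and Pi_1 formulas. -/

namespace Pool.Agent.ParisQ

/-- Make room for a new variable with index `c`. -/
def Norm_lt (c : ℕ) : Tm → Tm
  | .var i => .var (if i < c then i else i + 1)
  | .zero => .zero
  | .one => .one
  | .add s t => .add (Norm_lt c s) (Norm_lt c t)
  | .mul s t => .mul (Norm_lt c s) (Norm_lt c t)

/-- Make room for a new variable with index `c`. -/
def Norm_lf : ℕ → Fm → Fm
  | c, .eq s t => .eq (Norm_lt c s) (Norm_lt c t)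
  | c, .lt s t => .lt (Norm_lt c s) (Norm_lt c t)
  | c, .base k s t u => .base k (Norm_lt c s) (Norm_lt c t) (Norm_lt c u)
  | c, .neg φ => .neg (Norm_lf c φ)
  | c, .and φ ψ => .and (Norm_lf c φ) (Norm_lf c ψ)
  | c, .ball t φ => .ball (Norm_lt c t) (Norm_lf (c + 1) φ)
  | c, .all φ => .all (Norm_lf (c + 1) φ)

theorem Norm_getD {M : Type} [Zero M] (w v : List M) (t : M) (i : ℕ) :
    (w ++ t :: v).getD (if i < w.length then i else i + 1) 0 = (w ++ v).getD i 0 := by
  split_ifs with h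
  · rw [List.getD_append _ _ _ _ h, List.getD_append _ _ _ _ h]
  · push Not at h
    rw [List.getD_append_right _ _ _ _ (by omega), List.getD_append_right _ _ _ _ h]
    have : i + 1 - w.length = (i - w.length) + 1 := by omega
    rw [this, List.getD_cons_succ]

theorem Norm_val {M : Type} [CommSemiring M] (w v : List M) (t : M) (s : Tm) :
    (Norm_lt w.length s).val (w ++ t :: v) = s.val (w ++ v) := by
  induction s with
  | var i => simp only [Norm_lt, Tm.val, Norm_getD]
  | zero => rfl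
  | one => rfl
  | add a b ha hb => simp only [Norm_lt, Tm.val, ha, hb]
  | mul a b ha hb => simp only [Norm_lt, Tm.val, ha, hb]

theorem Norm_holds {M : Type} [CommSemiring M] [LinearOrder M] (I : Interp M) (v : List M)
    (t : M) (φ : Fm) : ∀ w : List M,
    (Norm_lf w.length φ).holds I (w ++ t :: v) ↔ φ.holds I (w ++ v) := by
  induction φ with
  | eq s u => intro w; simp only [Norm_lf, Fm.holds, Norm_val]
  | lt s u => intro w; simp only [Norm_lf, Fm.holds, Norm_val]
  | base k a b c => intro w; simp only [Norm_lf, Fm.holds, Norm_val]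
  | neg φ ih => intro w; simp only [Norm_lf, Fm.holds, ih]
  | and φ ψ h1 h2 => intro w; simp only [Norm_lf, Fm.holds, h1, h2]
  | ball s φ ih =>
    intro w
    simp only [Norm_lf, Fm.holds, Norm_val]
    refine forall₂_congr fun y _ => ?_
    exact ih (y :: w)
  | all φ ih =>
    intro w
    simp only [Norm_lf, Fm.holds]
    refine forall_congr' fun y => ?_
    exact ih (y :: w)

theorem Norm_delta (φ : Fm) : ∀ c : ℕ, φ.Delta0 → (Norm_lf c φ).Delta0 := by
  induction φ with
  | eq s u => intro c h; exact h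
  | lt s u => intro c h; exact h
  | base k a b c => intro c h; exact h
  | neg φ ih => intro c h; exact ih c h
  | and φ ψ h1 h2 => intro c h; exact ⟨h1 c h.1, h2 c h.2⟩
  | ball s φ ih => intro c h; exact ih (c + 1) h
  | all φ ih => intro c h; exact h

theorem Norm_var {M : Type} [CommSemiring M] (w v : List M) (t : M) :
    (Tm.var w.length).val (w ++ t :: v) = t := by
  simp only [Tm.val]
  rw [List.getD_append_right _ _ _ _ le_rfl, Nat.sub_self, List.getD_cons_zero]

/-- the bounded existential quantifier over the new variable `y ≤ var c` -/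
theorem Norm_bex {M : Type} [CommSemiring M] [LinearOrder M] (I : Interp M) (α : Fm)
    (w v : List M) (t : M) :
    (Fm.neg (.ball (.var w.length) (.neg α))).holds I (w ++ t :: v) ↔
      ∃ y : M, y ≤ t ∧ α.holds I (y :: w ++ t :: v) := by
  simp only [Fm.holds, Norm_var, List.cons_append]
  push Not
  rfl

theorem Norm_sigma (φ : Fm) (h : Sigma1 φ) : ∀ c : ℕ, ∃ α : Fm, α.Delta0 ∧
    ∀ (M : Type) [CommSemiring M] [LinearOrder M] (I : Interp M) (w v : List M), w.length = c →
      (∀ t : M, α.holds I (w ++ t :: v) → φ.holds I (w ++ v)) ∧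
      (φ.holds I (w ++ v) → ∃ t₀ : M, ∀ t : M, t₀ ≤ t → α.holds I (w ++ t :: v)) := by
  induction h with
  | @delta φ hφ =>
    intro c
    refine ⟨Norm_lf c φ, Norm_delta φ c hφ, ?_⟩
    intro M _ _ I w v hw
    subst hw
    exact ⟨fun t ht => (Norm_holds I v t φ w).mp ht,
      fun h => ⟨0, fun t _ => (Norm_holds I v t φ w).mpr h⟩⟩
  | @ex φ hφ ih =>
    intro c
    obtain ⟨α, hα, hα'⟩ := ih (c + 1)
    refine ⟨.neg (.ball (.var c) (.neg α)), hα, ?_⟩
    intro M _ _ I w v hw
    subst hw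
    constructor
    · intro t ht
      rw [Norm_bex] at ht
      obtain ⟨y, _, hy⟩ := ht
      have h1 := (hα' M I (y :: w) v rfl).1 t hy
      intro hall
      exact hall y h1
    · intro hex
      have : ∃ y : M, φ.holds I (y :: (w ++ v)) := by
        by_contra hcon
        push Not at hcon
        exact hex hcon
      obtain ⟨y, hy⟩ := this
      obtain ⟨t₀, ht₀⟩ := (hα' M I (y :: w) v rfl).2 hy
      refine ⟨max t₀ y, fun t ht => ?_⟩
      rw [Norm_bex]
      exact ⟨y, (le_max_right _ _).trans ht, ht₀ t ((le_max_left _ _).trans ht)⟩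

theorem Norm_pi (ψ : Fm) (h : Pi1 ψ) : ∀ c : ℕ, ∃ β : Fm, β.Delta0 ∧
    ∀ (M : Type) [CommSemiring M] [LinearOrder M] (I : Interp M) (w v : List M), w.length = c →
      (∀ t : M, β.holds I (w ++ t :: v) → ¬ ψ.holds I (w ++ v)) ∧
      (¬ ψ.holds I (w ++ v) → ∃ t₀ : M, ∀ t : M, t₀ ≤ t → β.holds I (w ++ t :: v)) := by
  induction h with
  | @delta ψ hψ =>
    intro c
    refine ⟨.neg (Norm_lf c ψ), Norm_delta ψ c hψ, ?_⟩
    intro M _ _ I w v hw
    subst hw
    exact ⟨fun t ht h => ht ((Norm_holds I v t ψ w).mpr h),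
      fun h => ⟨0, fun t _ h' => h ((Norm_holds I v t ψ w).mp h')⟩⟩
  | @all ψ hψ ih =>
    intro c
    obtain ⟨β, hβ, hβ'⟩ := ih (c + 1)
    refine ⟨.neg (.ball (.var c) (.neg β)), hβ, ?_⟩
    intro M _ _ I w v hw
    subst hw
    constructor
    · intro t ht hall
      rw [Norm_bex] at ht
      obtain ⟨y, _, hy⟩ := ht
      exact (hβ' M I (y :: w) v rfl).1 t hy (hall y)
    · intro hex
      have : ∃ y : M, ¬ ψ.holds I (y :: (w ++ v)) := by
        by_contra hcon
        push Not at hcon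
        exact hex hcon
      obtain ⟨y, hy⟩ := this
      obtain ⟨t₀, ht₀⟩ := (hβ' M I (y :: w) v rfl).2 hy
      refine ⟨max t₀ y, fun t ht => ?_⟩
      rw [Norm_bex]
      exact ⟨y, (le_max_right _ _).trans ht, ht₀ t ((le_max_left _ _).trans ht)⟩

theorem Sigma1.normal (φ : Fm) (h : Sigma1 φ) : ∃ α : Fm, α.Delta0 ∧
    ∀ (M : Type) [CommSemiring M] [LinearOrder M] (I : Interp M) (v : List M),
      φ.holds I v ↔ ∃ t : M, α.holds I (t :: v) := by
  obtain ⟨α, hα, hα'⟩ := Norm_sigma φ h 0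
  refine ⟨α, hα, ?_⟩
  intro M _ _ I v
  obtain ⟨h1, h2⟩ := hα' M I [] v rfl
  constructor
  · intro hφ
    obtain ⟨t₀, ht₀⟩ := h2 hφ
    exact ⟨t₀, ht₀ t₀ le_rfl⟩
  · rintro ⟨t, ht⟩
    exact h1 t ht

theorem Pi1.normal (ψ : Fm) (h : Pi1 ψ) : ∃ β : Fm, β.Delta0 ∧
    ∀ (M : Type) [CommSemiring M] [LinearOrder M] (I : Interp M) (v : List M),
      ψ.holds I v ↔ ¬ ∃ t : M, β.holds I (t :: v) := by
  obtain ⟨β, hβ, hβ'⟩ := Norm_pi ψ h 0
  refine ⟨β, hβ, ?_⟩
  intro M _ _ I v
  obtain ⟨h1, h2⟩ := hβ' M I [] v rfl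
  constructor
  · rintro hψ ⟨t, ht⟩
    exact h1 t ht hψ
  · intro hno
    by_contra hψ
    obtain ⟨t₀, ht₀⟩ := h2 hψ
    exact hno ⟨t₀, ht₀ t₀ le_rfl⟩

end Pool.Agent.ParisQ
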