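import Pool.Agent.ParisQ.Decide

/-! Rounds: from a grid of decided positions to two neighbours. -/

namespace Pool.Agent.ParisQ

/-- The outcome at position `i`. -/
def Out (b : ℕ) (X Y : ℕ → ℕ → (ℕ → ℕ) → Prop) (i n : ℕ) (f : ℕ → ℕ) : Prop :=
  (i = 0 ∧ Y 0 n f) ∨ (i = b ∧ X b n f) ∨ (i < b ∧ X i n f ∧ Y (i + 1) n f) ∨
    (X i n f ∧ Y i n f)

/-- Persistence of a property of states for all `a ≤ b`. -/
def Pers (b : ℕ) (X : ℕ → ℕ → (ℕ → ℕ) → Prop) : Prop :=
  ∀ a ≤ b, ∀ n f n' f', Ext n f n' f' → X a n f → X a n' f'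

theorem Rounds_le_iter (m : ℕ → ℕ) (k n : ℕ) : n ≤ (fun n => n + m n)^[k] n := by
  induction k generalizing n with
  | zero => exact le_rfl
  | succ k ih =>
    rw [Function.iterate_succ_apply]
    exact le_trans (Nat.le_add_right n (m n)) (ih _)

/-- One round: decide all the points of `A`. -/
theorem Rounds_step {x q q' b : ℕ} {P : ℕ → (ℕ → ℕ) → Prop} {X Y : ℕ → ℕ → (ℕ → ℕ) → Prop}
    {m : ℕ → ℕ} (hq' : 1 ≤ q') (A : Finset ℕ) (hA0 : A.Nonempty) (hA : A.card * q' ≤ q)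
    (hAb : ∀ a ∈ A, a ≤ b)
    (hX : ∀ i ≤ b, ∀ n f n' f', Ext n f n' f' → X i n f → X i n' f')
    (hY : ∀ i ≤ b, ∀ n f n' f', Ext n f n' f' → Y i n f → Y i n' f')
    {n₀ : ℕ} {f₀ : ℕ → ℕ}
    (hB : ∀ n f, Ext n₀ f₀ n f → ∀ i ≤ b,
      ¬ W x q' (fun n f => P n f ∧ ¬ X i n f ∧ ¬ Y i n f) (m n) n f)
    {h n : ℕ} {f : ℕ → ℕ} (hE : Ext n₀ f₀ n f) (hW : W x q P (h + m n) n f) :
    ∃ f', Ext n f (n + m n) f' ∧ W x q P h (n + m n) f' ∧
      ∀ a ∈ A, X a (n + m n) f' ∨ Y a (n + m n) f' := by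
  have hq : 1 ≤ q := by
    have : 1 ≤ A.card := Finset.card_pos.2 hA0
    nlinarith
  obtain ⟨f', h1, h2, h3⟩ := W.decide (Q := fun a n f => ¬ X a n f ∧ ¬ Y a n f) A hq' hq hA
    (by
      intro a ha n f n' f' he hn
      have hab := hAb a ha
      by_cases hx : X a n f
      · exact fun hh => hh.1 (hX a hab n f n' f' he hx)
      · by_cases hy : Y a n f
        · exact fun hh => hh.2 (hY a hab n f n' f' he hy)
        · exact absurd ⟨hx, hy⟩ hn)
    hW (fun a ha => hB n f hE a (hAb a ha))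
  refine ⟨f', h1, h2, fun a ha => ?_⟩
  have := h3 a ha
  by_contra hcon
  exact this ⟨fun hx => hcon (Or.inl hx), fun hy => hcon (Or.inr hy)⟩

/-- Refinement of an interval with `X` at the left end and `Y` at the right end. -/
theorem Rounds_core {x q q' g b : ℕ} {P : ℕ → (ℕ → ℕ) → Prop} {X Y : ℕ → ℕ → (ℕ → ℕ) → Prop}
    {m : ℕ → ℕ} (hq' : 1 ≤ q') (hqq : q' * (g + 1) ≤ q)
    (hX : ∀ i ≤ b, ∀ n f n' f', Ext n f n' f' → X i n f → X i n' f')
    (hY : ∀ i ≤ b, ∀ n f n' f', Ext n f n' f' → Y i n f → Y i n' f')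
    {n₀ : ℕ} {f₀ : ℕ → ℕ}
    (hB : ∀ n f, Ext n₀ f₀ n f → ∀ i ≤ b,
      ¬ W x q' (fun n f => P n f ∧ ¬ X i n f ∧ ¬ Y i n f) (m n) n f) (h : ℕ) (R : ℕ) :
    ∀ (l r n : ℕ) (f : ℕ → ℕ), l ≤ r → r ≤ b → r ≤ l + g ^ R → X l n f → Y r n f →
      Ext n₀ f₀ n f → W x q P (h + ((fun n => n + m n)^[R] n - n)) n f →
      ∃ n' f', ∃ i ≤ b, n' ≤ (fun n => n + m n)^[R] n ∧ Ext n₀ f₀ n' f' ∧ W x q P h n' f' ∧
        Out b X Y i n' f' := by
  induction R with
  | zero =>
    intro l r n f hlr hrb hg hxl hyr hE hW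
    simp only [Function.iterate_zero, id_eq, Nat.sub_self, Nat.add_zero] at hW
    refine ⟨n, f, l, le_trans hlr hrb, le_rfl, hE, hW, ?_⟩
    rcases Nat.lt_or_ge l r with hlt | hge
    · have : r = l + 1 := by
        have : g ^ 0 = 1 := pow_zero g
        omega
      subst this
      exact Or.inr (Or.inr (Or.inl ⟨by omega, hxl, hyr⟩))
    · have : r = l := by omega
      subst this
      exact Or.inr (Or.inr (Or.inr ⟨hxl, hyr⟩))
  | succ R ih =>
    intro l r n f hlr hrb hg hxl hyr hE hW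
    rw [Function.iterate_succ_apply] at hW
    set n1 := n + m n with hn1
    have hle : n1 ≤ (fun n => n + m n)^[R] n1 := Rounds_le_iter m R n1
    -- the grid
    let a : ℕ → ℕ := fun k => min (l + k * g ^ R) r
    have ha0 : a 0 = l := by simp [a, hlr]
    have hag : a g = r := by
      have : l + g * g ^ R = l + g ^ (R + 1) := by rw [pow_succ, Nat.mul_comm]
      show min (l + g * g ^ R) r = r
      rw [this]
      exact min_eq_right hg
    let A : Finset ℕ := (Finset.range (g + 1)).image a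
    have hAc : A.card * q' ≤ q := by
      have : A.card ≤ g + 1 := le_trans Finset.card_image_le (by simp)
      calc A.card * q' ≤ (g + 1) * q' := Nat.mul_le_mul_right _ this
        _ = q' * (g + 1) := Nat.mul_comm _ _
        _ ≤ q := hqq
    have hA0 : A.Nonempty := ⟨a 0, Finset.mem_image_of_mem a (by simp)⟩
    have har : ∀ k, a k ≤ r := fun k => min_le_right _ _
    have hAb : ∀ y ∈ A, y ≤ b := by
      intro y hy
      obtain ⟨k, -, rfl⟩ := Finset.mem_image.1 hy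
      exact le_trans (har k) hrb
    have hW' : W x q P ((h + ((fun n => n + m n)^[R] n1 - n1)) + m n) n f := by
      have e : h + ((fun n => n + m n)^[R] ((fun n => n + m n) n) - n)
          = (h + ((fun n => n + m n)^[R] n1 - n1)) + m n := by
        show h + ((fun n => n + m n)^[R] n1 - n) = (h + ((fun n => n + m n)^[R] n1 - n1)) + m n
        omega
      rw [← e]
      exact hW
    obtain ⟨f', h1, h2, h3⟩ := Rounds_step hq' A hA0 hAc hAb hX hY hB hE hW'
    have hxl' : X l n1 f' := hX l (le_trans hlr hrb) _ _ _ _ h1 hxl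
    have hyr' : Y r n1 f' := hY r hrb _ _ _ _ h1 hyr
    have hE' : Ext n₀ f₀ n1 f' := hE.trans h1
    rw [Function.iterate_succ_apply]
    show ∃ n' f', ∃ i ≤ b, n' ≤ (fun n => n + m n)^[R] n1 ∧ Ext n₀ f₀ n' f' ∧ W x q P h n' f' ∧
        Out b X Y i n' f'
    -- find the change
    have hex : ∃ k, k < g ∧ X (a k) n1 f' ∧ Y (a (k + 1)) n1 f' ∨
        (X r n1 f' ∧ Y r n1 f') := by
      by_contra hcon
      push Not at hcon
      have hall : ∀ k, k ≤ g → X (a k) n1 f' := by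
        intro k
        induction k with
        | zero => intro _; rw [ha0]; exact hxl'
        | succ k ihk =>
          intro hk
          have hxk := ihk (by omega)
          have hny := (hcon k).1 (by omega) hxk
          have hmem : a (k + 1) ∈ A :=
            Finset.mem_image_of_mem a (Finset.mem_range.2 (by omega))
          rcases h3 _ hmem with hx | hy
          · exact hx
          · exact absurd hy hny
      have hxg := hall g le_rfl
      rw [hag] at hxg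
      exact (hcon 0).2 hxg hyr'
    obtain ⟨k, hk⟩ := hex
    rcases hk with ⟨hkg, hxk, hyk⟩ | ⟨hxr, hyr2⟩
    · have hmono : a k ≤ a (k + 1) := by
        apply min_le_min_right
        rw [Nat.succ_mul]
        omega
      have hstep : a (k + 1) ≤ a k + g ^ R := by
        show min (l + (k + 1) * g ^ R) r ≤ min (l + k * g ^ R) r + g ^ R
        rw [Nat.succ_mul]
        omega
      exact ih (a k) (a (k + 1)) n1 f' hmono (le_trans (har _) hrb) hstep hxk hyk hE' h2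
    · exact ih r r n1 f' le_rfl hrb (by omega) hxr hyr2 hE' h2

theorem rounds {x q q' g b : ℕ} {P : ℕ → (ℕ → ℕ) → Prop} {X Y : ℕ → ℕ → (ℕ → ℕ) → Prop}
    {m : ℕ → ℕ} (hq' : 1 ≤ q') (hg : 1 ≤ g) (hqq : q' * (g + 1) ≤ q)
    (hX : ∀ i ≤ b, ∀ n f n' f', Ext n f n' f' → X i n f → X i n' f')
    (hY : ∀ i ≤ b, ∀ n f n' f', Ext n f n' f' → Y i n f → Y i n' f')
    {n₀ : ℕ} {f₀ : ℕ → ℕ}
    (hB : ∀ n f, Ext n₀ f₀ n f → ∀ i ≤ b,
      ¬ W x q' (fun n f => P n f ∧ ¬ X i n f ∧ ¬ Y i n f) (m n) n f)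
    {R h : ℕ} (hR : b ≤ g ^ R)
    (hW : W x q P (h + ((fun n => n + m n)^[R + 1] n₀ - n₀)) n₀ f₀) :
    ∃ n f, ∃ i ≤ b, n ≤ (fun n => n + m n)^[R + 1] n₀ ∧ Ext n₀ f₀ n f ∧ W x q P h n f ∧
      Out b X Y i n f := by
  rw [Function.iterate_succ_apply] at hW ⊢
  set n1 := n₀ + m n₀ with hn1
  have hle : n1 ≤ (fun n => n + m n)^[R] n1 := Rounds_le_iter m R n1
  have hW' : W x q P ((h + ((fun n => n + m n)^[R] n1 - n1)) + m n₀) n₀ f₀ := by
    have e : h + ((fun n => n + m n)^[R] ((fun n => n + m n) n₀) - n₀)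
        = (h + ((fun n => n + m n)^[R] n1 - n1)) + m n₀ := by
      show h + ((fun n => n + m n)^[R] n1 - n₀) = (h + ((fun n => n + m n)^[R] n1 - n1)) + m n₀
      omega
    rw [← e]
    exact hW
  let A : Finset ℕ := {0, b}
  have hA0 : A.Nonempty := ⟨0, by simp [A]⟩
  have hAc : A.card * q' ≤ q := by
    have h2 : A.card ≤ 2 := Finset.card_le_two
    calc A.card * q' ≤ (g + 1) * q' := Nat.mul_le_mul_right _ (by omega)
      _ = q' * (g + 1) := Nat.mul_comm _ _
      _ ≤ q := hqq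
  have hAb : ∀ a ∈ A, a ≤ b := by
    intro a ha
    simp only [A, Finset.mem_insert, Finset.mem_singleton] at ha
    rcases ha with rfl | rfl
    · exact Nat.zero_le _
    · exact le_rfl
  have hE0 : Ext n₀ f₀ n₀ f₀ := Ext.refl n₀ f₀
  obtain ⟨f', h1, h2, h3⟩ := Rounds_step hq' A hA0 hAc hAb hX hY hB hE0 hW'
  have hW2 : W x q P h n1 f' → W x q P h n1 f' := id
  show ∃ n f, ∃ i ≤ b, n ≤ (fun n => n + m n)^[R] n1 ∧ Ext n₀ f₀ n f ∧ W x q P h n f ∧
      Out b X Y i n f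
  rcases h3 0 (by simp [A]) with hx0 | hy0
  · rcases h3 b (by simp [A]) with hxb | hyb
    · -- `X b`
      have hq : 1 ≤ q := by nlinarith
      exact ⟨n1, f', b, le_rfl, hle, h1, W.mono hq (Nat.le_add_right _ _) le_rfl
        (fun _ _ h => h) h2, Or.inr (Or.inl ⟨rfl, hxb⟩)⟩
    · exact Rounds_core hq' hqq hX hY hB h R 0 b n1 f' (Nat.zero_le _) le_rfl (by omega) hx0 hyb
        h1 h2
  · have hq : 1 ≤ q := by nlinarith
    exact ⟨n1, f', 0, Nat.zero_le _, hle, h1, W.mono hq (Nat.le_add_right _ _) le_rfl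
        (fun _ _ h => h) h2, Or.inl ⟨rfl, hy0⟩⟩

end Pool.Agent.ParisQ
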