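import Pool.Agent.ParisQ.Gen
import Pool.Agent.ParisQ.Brn
import Pool.Agent.ParisQ.Norm

/-! The data from which the model is built. -/

open Filter

namespace Pool.Agent.ParisQ

deriving instance Countable for Tm
deriving instance Countable for Fm

/-- Kinds of closure problems. -/
inductive Kd : Type
  | zero : Kd
  | one : Kd
  | add : Kd
  | mul : Kd
  | sub : Kd
  | xx : Kd
  | yy : Kd
  | lev : Kd
  | pow : Kd
  | out : Kd
  | aliv : Kd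
  | wit : Fm → Tm → Kd
  | tw : Fm → ℕ → Kd
deriving Countable

/-- A witness for `α` has been found by the state `(n, f)`. -/
def Dec (g : ℕ → ℕ) (P : ℕ → ℕ → ℕ → ℕ → Prop) (x : ℕ → ℕ) (α : Fm) (D : ℕ) (i : Idx) (m0 : ℕ)
    (l : List ℕ) (a n : ℕ) (f : ℕ → ℕ) : Prop :=
  ∃ m, m0 ≤ m ∧ D * m ≤ n ∧ ∃ t, t ≤ x i.1 ^ m ∧
    α.holds (stdI g (orc x i f) P) (t :: a :: l)

/-- The closure problems. -/
def TT (g : ℕ → ℕ) (P : ℕ → ℕ → ℕ → ℕ → Prop) (x y : ℕ → ℕ) :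
    Kd → Idx → List ℕ → ℕ → (ℕ → ℕ) → ℕ → Prop
  | .zero, _, _, _, _, z => z = 0
  | .one, _, _, _, _, z => z = 1
  | .add, _, l, _, _, z => z = l.getD 0 0 + l.getD 1 0
  | .mul, _, l, _, _, z => z = l.getD 0 0 * l.getD 1 0
  | .sub, _, l, _, _, z => z = l.getD 0 0 - l.getD 1 0
  | .xx, i, _, _, _, z => z = x i.1
  | .yy, i, _, _, _, z => z = y i.1
  | .lev, _, _, n, _, z => z = n
  | .pow, _, l, _, _, z => z = l.getD 0 0 ^ l.getD 1 0
  | .out, i, l, _, f, z => z = x i.1 ^ f (l.getD 0 0)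
  | .aliv, i, _, _, f, z => alive (x i.1) f z
  | .wit φ t, i, l, _, f, z => z ≤ t.val l ∧ ¬ φ.holds (stdI g (orc x i f) P) (z :: l)
  | .tw α D, i, l, n, f, z => ∃ m, l.getD 0 0 ≤ m ∧ D * m ≤ n ∧ z ≤ x i.1 ^ m ∧
      α.holds (stdI g (orc x i f) P) (z :: l.tail)

/-- The data from which the model is built. -/
structure Stp (g : ℕ → ℕ) (P : ℕ → ℕ → ℕ → ℕ → Prop) where
  x : ℕ → ℕ
  y : ℕ → ℕ
  F : Set (Idx → ℕ)
  c : ℕ → Cond
  A : ℕ → ℕ → ℕ → Prop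
  pa : ℕ → ℕ → ℕ → ℕ → Prop
  hx : Tendsto x atTop atTop
  hx2 : ∀ j, 2 ≤ x j
  hxg : ∀ j, x j ^ x j < g (y j)
  good : ∀ k, Good x (c k)
  le : ∀ k, Le (c (k + 1)) (c k)
  init_n : ∀ i, (c 0).n i = y i.1 + 1
  init_f : ∀ i u, (c 0).f i u = 0
  clo : ∀ (s : Kd) (l : List (Idx → ℕ)), (∀ a ∈ l, a ∈ F) → ∀ k, ∃ z ∈ F, ∀ i : Idx,
        (∃ z' : ℕ, TT g P x y s i (l.map (fun a => a i)) ((c k).n i) ((c k).f i) z') →
          TT g P x y s i (l.map (fun a => a i)) ((c k).n i) ((c k).f i) (z i)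
  meet : ∀ (α β : Fm) (l : List (Idx → ℕ)), (∀ a ∈ l, a ∈ F) → ∀ b ∈ F, ∀ k₀, ∃ k, k₀ ≤ k ∧
        ∃ i₀ ∈ F, ∀ᶠ i in Fil, b i ≤ x i.1 ^ (c k).n i →
          Pers (b i) (Dec g P x α (max α.deg β.deg) i ((c k).n i) (l.map (fun a => a i))) →
          Pers (b i) (Dec g P x β (max α.deg β.deg) i ((c k).n i) (l.map (fun a => a i))) →
          i₀ i ≤ b i ∧
          ((∀ n f, (c (k + 1)).P i n f →
              ¬ Dec g P x α (max α.deg β.deg) i ((c k).n i) (l.map (fun a => a i)) (i₀ i) n f ∧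
              ¬ Dec g P x β (max α.deg β.deg) i ((c k).n i) (l.map (fun a => a i)) (i₀ i) n f) ∨
            Out (b i) (Dec g P x α (max α.deg β.deg) i ((c k).n i) (l.map (fun a => a i)))
              (Dec g P x β (max α.deg β.deg) i ((c k).n i) (l.map (fun a => a i))) (i₀ i)
              ((c (k + 1)).n i) ((c (k + 1)).f i))
  leave : ∀ u ∈ F, ∃ k, ∀ᶠ i in Fil, u i ≤ x i.1 → (c k).f i (u i) ≠ 0
  grow : ∀ s k₀, ∃ k, k₀ ≤ k ∧ ∀ᶠ i in Fil, ack s ((c k).n i) ≤ (c (k + 1)).n i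
  pa_lt : ∀ j a u v, pa j a u v → a < x j
  agree : ∀ k, ∀ᶠ j in atTop, ∀ a u v, a ≤ x j ^ (c k).n (j, pa j) →
        u ≤ x j ^ (c k).n (j, pa j) → v ≤ x j ^ (c k).n (j, pa j) →
        (A a u v ↔ orc x (j, pa j) ((c k).f (j, pa j)) a u v)

theorem exists_Stp (g : ℕ → ℕ) (P : ℕ → ℕ → ℕ → ℕ → Prop) {x y q : ℕ → ℕ}
    (hxq : ∀ j, x j = q j ^ 2) (hxx : ∀ j, x j ^ x j < x (j + 1))
    (hxg : ∀ j, x j ^ x j < g (y j)) (hsq : ∀ s j, s < j → ack s (y j + 1) ≤ q j)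
    (hq : ∀ j, j + 2 ≤ q j) : Nonempty (Stp g P) := by
  have hx2 : ∀ j, 2 ≤ x j := by
    intro j
    rw [hxq]
    have := hq j
    nlinarith
  have hx : Tendsto x atTop atTop := by
    refine tendsto_atTop_mono (f := fun j => j) ?_ tendsto_id
    intro j
    rw [hxq]
    have := hq j
    nlinarith
  set c₀ : Cond := ⟨fun i => y i.1 + 1, fun _ _ => 0, fun i => q i.1, fun _ _ _ => True⟩ with hc₀
  have h₀ : Good x c₀ := initC hxq hsq
  obtain ⟨F, c, hc0, hgood, hle, hclo, hmeet, hleave, hgrow⟩ :=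
    gen hx c₀ h₀ (κ := Kd) (μ := Fm × Fm) (TT g P x y)
      (fun μ i m0 l => Dec g P x μ.1 (max μ.1.deg μ.2.deg) i m0 l)
      (fun μ i m0 l => Dec g P x μ.2 (max μ.1.deg μ.2.deg) i m0 l)
  obtain ⟨A, pa, hpa, hagree⟩ := exists_oracle hx hx2 hxx c hgood hle
  exact ⟨{
    x := x, y := y, F := F, c := c, A := A, pa := pa, hx := hx, hx2 := hx2, hxg := hxg,
    good := hgood, le := hle,
    init_n := by intro i; rw [hc0],
    init_f := by intro i u; rw [hc0],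
    clo := hclo,
    meet := fun α β => hmeet (α, β),
    leave := hleave, grow := hgrow, pa_lt := hpa, agree := hagree }⟩

end Pool.Agent.ParisQ
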