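import Pool.Agent.ParisQ.Model

/-! Los theorem for bounded formulas. -/

open Filter

namespace Pool.Agent.ParisQ

namespace Stp

variable {g : ℕ → ℕ} {P : ℕ → ℕ → ℕ → ℕ → Prop} (S : Stp g P)

/-- The list of representatives at `j`. -/
noncomputable def ev (v : List S.MM) (j : ℕ) : List ℕ := v.map (fun m => S.rp m j)

theorem ev_getD (v : List S.MM) (i : ℕ) :
    ∀ᶠ j in (UU : Filter ℕ), S.rp (v.getD i 0) j = (S.ev v j).getD i 0 := by
  by_cases hi : i < v.length
  · refine Eventually.of_forall fun j => ?_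
    simp [ev, hi]
  · filter_upwards [S.rp_zero] with j hj
    have h1 : v.getD i 0 = 0 := by simp [hi]
    have h2 : (S.ev v j).getD i 0 = 0 := by simp [ev, hi]
    rw [h1, h2, hj]

theorem rp_val (t : Tm) (v : List S.MM) :
    ∀ᶠ j in (UU : Filter ℕ), S.rp (t.val v) j = t.val (S.ev v j) := by
  induction t with
  | var i => exact S.ev_getD v i
  | zero => exact S.rp_zero
  | one => exact S.rp_one
  | add s t hs ht =>
    filter_upwards [hs, ht, S.rp_add (s.val v) (t.val v)] with j h1 h2 h3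
    simp only [Tm.val]
    rw [h3, h1, h2]
  | mul s t hs ht =>
    filter_upwards [hs, ht, S.rp_mul (s.val v) (t.val v)] with j h1 h2 h3
    simp only [Tm.val]
    rw [h3, h1, h2]

/-- Below the `k`-th level the oracle is the one of the `k`-th condition. -/
theorem agr (k : ℕ) : ∀ᶠ j in (UU : Filter ℕ), ∀ (φ : Fm), φ.Delta0 → ∀ z, 2 ≤ z →
    ∀ v : List ℕ, (∀ a ∈ v, a ≤ z) → z ^ φ.deg ≤ S.x j ^ (S.c k).n (S.br j) →
    (φ.holds (stdI g S.A P) v ↔
      φ.holds (stdI g (orc S.x (S.br j) ((S.c k).f (S.br j))) P) v) := by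
  filter_upwards [UU_of_atTop (S.agree k)] with j hj φ hφ z hz v hv hzz
  refine Fm.holds_congr φ hφ _ _ z hz v hv ?_
  intro s a b d ha hb hd
  match s with
  | 0 => exact Iff.rfl
  | 1 => exact Iff.rfl
  | 2 => exact hj a b d (ha.trans hzz) (hb.trans hzz) (hd.trans hzz)
  | s + 3 => exact Iff.rfl

/-- A common bound for a list. -/
theorem exists_bd (v : List S.MM) : ∃ k, ∀ k', k ≤ k' → ∀ᶠ j in (UU : Filter ℕ), ∀ a ∈ S.ev v j,
    a ≤ S.x j ^ (S.c k').n (S.br j) := by
  induction v with
  | nil => exact ⟨0, fun k' _ => Eventually.of_forall fun j => by simp [ev]⟩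
  | cons m v ih =>
    obtain ⟨k, hk⟩ := ih
    obtain ⟨l, hl⟩ := S.bd_rp m
    refine ⟨max k l, fun k' hk' => ?_⟩
    have h1 := hk k' (by omega)
    have h2 := hl.mono (S := S) (k' := k') (by omega)
    unfold Bd at h2
    filter_upwards [h1, h2] with j h3 h4
    intro a ha
    simp only [ev, List.map_cons, List.mem_cons] at ha
    rcases ha with rfl | ha
    · exact h4
    · exact h3 a ha

theorem two_le_pow (k : ℕ) : ∀ᶠ j in (UU : Filter ℕ), 2 ≤ S.x j ^ (S.c k).n (S.br j) := by
  filter_upwards [S.y_lt k] with j hj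
  calc 2 ≤ S.x j := S.hx2 j
    _ = S.x j ^ 1 := (pow_one _).symm
    _ ≤ _ := Nat.pow_le_pow_right (S.one_le_x j) (by omega)

theorem map_aF (v : List S.MM) (j : ℕ) :
    (v.map S.aF).map (fun a => a (S.br j)) = S.ev v j := by
  simp [ev, rp]

theorem mem_map_aF (v : List S.MM) : ∀ a ∈ v.map S.aF, a ∈ S.F := by
  intro a ha
  rw [List.mem_map] at ha
  obtain ⟨m, _, rfl⟩ := ha
  exact S.aF_mem m

theorem holds_iff (φ : Fm) (hφ : φ.Delta0) (v : List S.MM) :
    φ.holds S.II v ↔ ∀ᶠ j in (UU : Filter ℕ), φ.holds (stdI g S.A P) (S.ev v j) := by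
  induction φ generalizing v with
  | eq s t =>
    simp only [Fm.holds]
    rw [S.eq_iff]
    refine eventually_congr ?_
    filter_upwards [S.rp_val s v, S.rp_val t v] with j h1 h2
    rw [h1, h2]
  | lt s t =>
    simp only [Fm.holds]
    rw [S.lt_iff]
    refine eventually_congr ?_
    filter_upwards [S.rp_val s v, S.rp_val t v] with j h1 h2
    rw [h1, h2]
  | base k s t u =>
    simp only [Fm.holds, II]
    refine eventually_congr ?_
    filter_upwards [S.rp_val s v, S.rp_val t v, S.rp_val u v] with j h1 h2 h3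
    rw [h1, h2, h3]
  | neg φ ih =>
    simp only [Fm.holds]
    rw [ih hφ v, ← Ultrafilter.eventually_not]
  | and φ ψ ih1 ih2 =>
    simp only [Fm.holds]
    rw [ih1 hφ.1 v, ih2 hφ.2 v, ← eventually_and]
  | all φ _ => exact hφ.elim
  | ball t φ ih =>
    have hφ' : φ.Delta0 := hφ
    simp only [Fm.holds]
    constructor
    · intro h
      by_contra hcon
      rw [← Ultrafilter.eventually_not] at hcon
      obtain ⟨k0, hk0⟩ := S.exists_bd v
      obtain ⟨k, hk, hlev⟩ := S.mul_level (t.deg * φ.deg) k0 k0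
      obtain ⟨z, hz, hz2⟩ := S.close (.wit φ t) (v.map S.aF) (S.mem_map_aF v) k
      have key : ∀ᶠ j in (UU : Filter ℕ), z (S.br j) ≤ t.val (S.ev v j) ∧
          ¬ φ.holds (stdI g S.A P) (z (S.br j) :: S.ev v j) ∧
          z (S.br j) ≤ S.x j ^ (S.c k).n (S.br j) := by
        filter_upwards [hcon, hk0 k0 le_rfl, hlev, S.agr k, S.two_le_pow k0]
          with j h1 h2 h3 h4 h5
        push Not at h1
        obtain ⟨z', hz', hz''⟩ := h1
        set X0 := S.x j ^ (S.c k0).n (S.br j) with hX0
        have hval : t.val (S.ev v j) ≤ X0 ^ t.deg := Tm.val_le t X0 h5 _ h2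
        have hX1 : X0 ≤ X0 ^ t.deg := by
          calc X0 = X0 ^ 1 := (pow_one _).symm
            _ ≤ _ := Nat.pow_le_pow_right (by omega) (Tm.deg_pos t)
        have hbig : (X0 ^ t.deg) ^ φ.deg ≤ S.x j ^ (S.c k).n (S.br j) := by
          rw [hX0, ← pow_mul, ← pow_mul]
          refine Nat.pow_le_pow_right (S.one_le_x j) ?_
          calc (S.c k0).n (S.br j) * (t.deg * φ.deg) = t.deg * φ.deg * (S.c k0).n (S.br j) := by ring
            _ ≤ _ := h3
        have hagr : ∀ w, w ≤ t.val (S.ev v j) → (φ.holds (stdI g S.A P) (w :: S.ev v j) ↔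
            φ.holds (stdI g (orc S.x (S.br j) ((S.c k).f (S.br j))) P) (w :: S.ev v j)) := by
          intro w hw
          refine h4 φ hφ' (X0 ^ t.deg) (h5.trans hX1) _ ?_ hbig
          intro a ha
          rw [List.mem_cons] at ha
          rcases ha with rfl | ha
          · exact hw.trans hval
          · exact (h2 a ha).trans hX1
        have h6 := hz2 (S.br j) ⟨z', by
          rw [S.map_aF]
          exact ⟨hz', fun hc => hz'' ((hagr z' hz').mpr hc)⟩⟩
        rw [S.map_aF] at h6
        obtain ⟨h7, h8⟩ := h6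
        refine ⟨h7, fun hc => h8 ((hagr _ h7).mp hc), ?_⟩
        calc z (S.br j) ≤ X0 ^ t.deg := h7.trans hval
          _ = (X0 ^ t.deg) ^ 1 := (pow_one _).symm
          _ ≤ (X0 ^ t.deg) ^ φ.deg := Nat.pow_le_pow_right (by omega) (Fm.deg_pos φ)
          _ ≤ _ := hbig
      obtain ⟨m, hm⟩ := S.mk_elt hz (k := k) (key.mono fun j hj => hj.2.2)
      have h1 : m ≤ t.val v := by
        rw [S.le_iff]
        filter_upwards [hm, key, S.rp_val t v] with j h2 h3 h4
        rw [h2, h4]
        exact h3.1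
      have h2 := (ih hφ' (m :: v)).mp (h m h1)
      have h3 : ∀ᶠ j in (UU : Filter ℕ), False := by
        filter_upwards [h2, hm, key] with j h4 h5 h6
        have h7 : S.ev (m :: v) j = z (S.br j) :: S.ev v j := by
          simp [ev, h5]
        rw [h7] at h4
        exact h6.2.1 h4
      exact h3.exists.choose_spec
    · intro h y hy
      rw [ih hφ' (y :: v)]
      rw [S.le_iff] at hy
      filter_upwards [h, hy, S.rp_val t v] with j h1 h2 h3
      have : S.ev (y :: v) j = S.rp y j :: S.ev v j := by simp [ev]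
      rw [this]
      refine h1 _ ?_
      rw [← h3]
      exact h2

end Stp

end Pool.Agent.ParisQ
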